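import Pool.Agent.W868.FI.Defs

/-! Statements of the components. -/

open MeasureTheory Set

namespace Pool.Agent.W868.FI

/-- (1) approximation by local functions -/
def S_APPROX : Prop :=
  ∀ (ι X Sg : Type) [Countable ι] [MeasurableSpace X] [Fintype Sg]
    (μ : Measure X) [IsProbabilityMeasure μ] (f : (ι → X) → Sg)
    (_ : ∀ s, MeasurableSet (f ⁻¹' {s})) (ε : ℝ), 0 < ε →
    ∃ (W : Finset ι) (g : (ι → X) → Sg), (∀ s, MeasurableSet (g ⁻¹' {s})) ∧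
      DepOn (W : Set ι) g ∧ iid ι μ {x | f x ≠ g x} ≤ ENNReal.ofReal ε

/-- (2) one step: realise a coupling by a function of the bits -/
def S_STEP : Prop :=
  ∀ (ι O Z₁ Z₂ : Type) [Countable ι] [MeasurableSpace O] [Fintype Z₁] [Fintype Z₂]
    [Nonempty Z₂] (ν : Measure Bool) [IsProbabilityMeasure ν] (α : ℝ)
    (_ : ∀ b, ν {b} ≤ ENNReal.ofReal α) (Q : Measure O) [IsProbabilityMeasure Q]
    (L : Measure ((ι → Bool) × O)) (_ : L.map Prod.fst = iid ι ν) (_ : L.map Prod.snd = Q)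
    (D : Finset ι) (z : (ι → Bool) → Z₁) (_ : DepOn (D : Set ι) z)
    (u : O → Z₂) (_ : ∀ s, MeasurableSet (u ⁻¹' {s})),
    ∃ ψ : (ι → Bool) → Z₂, DepOn (D : Set ι) ψ ∧
      (∀ R : Set (Z₁ × Z₂), iid ι ν {b | (z b, ψ b) ∈ R} ≤
        L {p | (z p.1, u p.2) ∈ R} +
          ENNReal.ofReal (2 * Fintype.card Z₁ * Fintype.card Z₂ * α ^ D.card)) ∧
      ∃ L' : Measure ((ι → Bool) × O), L'.map Prod.fst = iid ι ν ∧ L'.map Prod.snd = Q ∧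
        L' {p | ψ p.1 ≠ u p.2} ≤
          ENNReal.ofReal (2 * Fintype.card Z₁ * Fintype.card Z₂ * α ^ D.card)

/-- (2a) finite greedy realisation -/
def S_REAL : Prop :=
  ∀ (B Z₁ Z₂ : Type) [Fintype B] [Fintype Z₁] [Fintype Z₂] [Nonempty Z₂] [DecidableEq Z₁]
    [DecidableEq Z₂] (w : B → ℝ) (_ : ∀ b, 0 ≤ w b)
    (κ : ℝ) (_ : ∀ b, w b ≤ κ) (z : B → Z₁) (J : Z₁ × Z₂ → ℝ) (_ : ∀ q, 0 ≤ J q)
    (_ : ∀ z₁, ∑ z₂, J (z₁, z₂) = ∑ b, if z b = z₁ then w b else 0),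
    ∃ ψ : B → Z₂, ∀ R : Finset (Z₁ × Z₂),
      |(∑ b, if (z b, ψ b) ∈ R then w b else 0) - ∑ q ∈ R, J q| ≤
        κ * Fintype.card Z₁ * Fintype.card Z₂

/-- (2b) gluing two spaces along nearly equal laws -/
def S_GLUE : Prop :=
  ∀ (O₁ O₂ Z : Type) [MeasurableSpace O₁] [MeasurableSpace O₂] [Fintype Z]
    (P₁ : Measure O₁) [IsProbabilityMeasure P₁] (P₂ : Measure O₂) [IsProbabilityMeasure P₂]
    (u₁ : O₁ → Z) (_ : ∀ s, MeasurableSet (u₁ ⁻¹' {s}))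
    (u₂ : O₂ → Z) (_ : ∀ s, MeasurableSet (u₂ ⁻¹' {s})) (η : ℝ)
    (_ : ∀ R : Set Z, P₁ (u₁ ⁻¹' R) ≤ P₂ (u₂ ⁻¹' R) + ENNReal.ofReal η),
    ∃ L : Measure (O₁ × O₂), L.map Prod.fst = P₁ ∧ L.map Prod.snd = P₂ ∧
      L {p | u₁ p.1 ≠ u₂ p.2} ≤ ENNReal.ofReal η

/-- (3) patching couplings on disjoint sets of coordinates -/
def S_PATCH : Prop :=
  ∀ (ι I A B : Type) [Countable ι] [Fintype I] [MeasurableSpace A] [MeasurableSpace B]
    (α : Measure A) [IsProbabilityMeasure α] (β : Measure B) [IsProbabilityMeasure β]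
    (C : I → Set ι) (_ : Pairwise (fun i j => Disjoint (C i) (C j)))
    (Λ : I → Measure ((ι → A) × (ι → B)))
    (_ : ∀ i, (Λ i).map Prod.fst = iid ι α) (_ : ∀ i, (Λ i).map Prod.snd = iid ι β),
    ∃ (Ξ : Type) (_ : MeasurableSpace Ξ) (θ : Measure Ξ) (p : Ξ → (ι → A) × (ι → B))
      (q : I → Ξ → (ι → A) × (ι → B)), Measurable p ∧ (∀ i, Measurable (q i)) ∧
      θ.map (fun ξ => (p ξ).1) = iid ι α ∧ θ.map (fun ξ => (p ξ).2) = iid ι β ∧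
      (∀ i, θ.map (q i) = Λ i) ∧
      ∀ ξ i, ∀ g ∈ C i, (q i ξ).1 g = (p ξ).1 g ∧ (q i ξ).2 g = (p ξ).2 g

/-- (4) resampling the values at self-determined sites -/
def S_RES : Prop :=
  ∀ (ι A : Type) [Countable ι] [MeasurableSpace A] (α : Measure A) [IsProbabilityMeasure α]
    (s : ι → (ι → A) → Bool) (_ : ∀ g, Measurable (s g))
    (_ : ∀ y y' : ι → A, (∀ g, s g y = false → y g = y' g) → ∀ g, s g y' = s g y),
    ((iid ι α).prod (iid ι α)).map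
      (fun p : (ι → A) × (ι → A) => fun g => if s g p.1 = true then p.2 g else p.1 g) = iid ι α

/-- (5) existence of stars -/
def S_STARS : Prop :=
  ∀ (Γ : Type) [Group Γ] [Countable Γ] [Infinite Γ] (ν : Measure Bool)
    [IsProbabilityMeasure ν], 0 < ν {true} → 0 < ν {false} →
    ∃ a b : (Γ → Bool) → Bool, Stars ν a b

/-- (6) nearly invariant partitions, determined off the `a`-stars -/
def S_PART : Prop :=
  ∀ (Γ : Type) [Group Γ] [Countable Γ] [Infinite Γ] (_ : Folner Γ) (ν : Measure Bool)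
    [IsProbabilityMeasure ν] (_ : 0 < ν {true}) (_ : 0 < ν {false})
    (a b : (Γ → Bool) → Bool) (_ : Stars ν a b)
    (S : Finset Γ) (ε : ℝ), 0 < ε →
    ∃ c : (Γ → Bool) → Γ, Loc c ∧
      iid Γ ν {y | ∃ s ∈ S, c (sh s (er a y)) * s ≠ c (er a y)} ≤ ENNReal.ofReal ε

open Classical in
/-- (7) averaging over nearly invariant finite cells -/
def S_AVG : Prop :=
  ∀ (Γ : Type) [Group Γ] [Countable Γ] [Infinite Γ] (ν : Measure Bool)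
    [IsProbabilityMeasure ν] (φ : (Γ → Bool) → ℝ) (_ : Loc φ) (_ : 0 < ∫ y, φ y ∂(iid Γ ν))
    (K M : ℝ) (_ : 0 ≤ K) (L : Finset Γ) (ε : ℝ), 0 < ε →
    ∃ (S : Finset Γ) (δ : ℝ), 0 < δ ∧ ∀ c : (Γ → Bool) → Γ, Loc c →
      iid Γ ν {y | ∃ s ∈ S, c (sh s y) * s ≠ c y} ≤ ENNReal.ofReal δ →
      iid Γ ν {y | ∑ᶠ g ∈ {g : Γ | c (sh g y) * g = c y},
        (φ (sh g y) - K * (if ∀ l ∈ L, c (sh (l * g) y) * (l * g) = c y then 0 else 1)) < M} ≤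
        ENNReal.ofReal ε

/-- (8) almost every point is free -/
def S_FREE : Prop :=
  ∀ (Γ X : Type) [Group Γ] [Countable Γ] [Infinite Γ] [MeasurableSpace X] (μ : Measure X)
    [IsProbabilityMeasure μ] (E : Set X), MeasurableSet E → 0 < μ E → 0 < μ Eᶜ →
    ∀ᵐ x ∂(iid Γ μ), ∀ γ : Γ, γ ≠ 1 → sh γ x ≠ x

/-- (9) the stage lemma -/
def S_STAGE : Prop :=
  ∀ (Γ Sg X : Type) [Group Γ] [Countable Γ] [Fintype Sg] [Nonempty Sg] [MeasurableSpace X]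
    (ν : Measure Bool) [IsProbabilityMeasure ν] (μ : Measure X) [IsProbabilityMeasure μ]
    (α : ℝ) (_ : ∀ b, ν {b} ≤ ENNReal.ofReal α)
    (F : Finset Γ) (Pt : Set (F → Sg)) (t : (Γ → Bool) → Γ) (_ : Loc t)
    (a : (Γ → Bool) → Bool)
    (f : (Γ → X) → Sg) (_ : ∀ s, MeasurableSet (f ⁻¹' {s}))
    (c : (Γ → Bool) → Γ) (_ : Loc c) (ψ : (Γ → Bool) → (Γ → Bool) → Γ → Sg) (η : ℝ) (_ : 0 ≤ η)
    (_ : IP F t a α ν μ f c ψ η)
    (W : Finset Γ) (fW : (Γ → X) → Sg) (_ : ∀ s, MeasurableSet (fW ⁻¹' {s}))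
    (_ : DepOn (W : Set Γ) fW) (ε : ℝ) (_ : 0 ≤ ε)
    (_ : iid Γ μ {x | f x ≠ fW x} ≤ ENNReal.ofReal ε)
    (N : ℕ) (_ : ∀ e k, (cell t e k).ncard ≤ N)
    (e : Γ → Bool) (C' : Set Γ) (_ : C'.Finite),
    ∃ ψ' : (Γ → Bool) → Γ → Sg, DepOn (avl a e C') ψ' ∧
      (∃ L : Measure ((Γ → Bool) × (Γ → X)),
        L.map Prod.fst = iid Γ ν ∧ L.map Prod.snd = iid Γ μ ∧
        L {p | ∃ g ∈ Unk F t e C', ψ' p.1 g ≠ f (sh g p.2)} ≤
          ENNReal.ofReal (kap Sg α F t a e C')) ∧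
      ∀ g ∈ C', Fine Sg F t a α c η W e C' g →
        iid Γ ν {b | fld F Pt t c ψ e b g ≠ dec F Pt t e C' (ψ' b) g} ≤
          ENNReal.ofReal (η + 2 * N * ε + kap Sg α F t a e C')

end Pool.Agent.W868.FI
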