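import Pool.Agent.W868.FI.Defs

/-! More statements. -/

open MeasureTheory Set

namespace Pool.Agent.W868.FI

/-- (6b) many stars in far windows -/
def S_MANY : Prop :=
  ∀ (Γ : Type) [Group Γ] [Countable Γ] [Infinite Γ] (ν : Measure Bool)
    [IsProbabilityMeasure ν] (b : (Γ → Bool) → Bool) (_ : Loc b)
    (_ : 0 < iid Γ ν {y | b y = true}) (D : Finset Γ) (M : ℕ) (ε : ℝ), 0 < ε →
    ∃ (k : ℕ) (h : Fin k → Γ),
      (∀ i j, ∀ g ∈ D, ∀ g' ∈ D, h i * g = h j * g' → i = j ∧ g = g') ∧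
      iid Γ ν {y | ∃ g ∈ D,
        (Finset.univ.filter (fun i : Fin k => b (sh (h i * g) y) = true)).card < M} ≤
        ENNReal.ofReal ε

/-- (6c) the place of the minimum of iid labels is nearly uniform -/
def S_ARG : Prop :=
  ∀ (ν : Measure Bool) [IsProbabilityMeasure ν], 0 < ν {true} → 0 < ν {false} →
    ∀ (D : Type) [Fintype D] [Nonempty D] (ε : ℝ), 0 < ε →
    ∃ (M : ℕ) (enc : (Fin M → Bool) → ℕ), Function.Injective enc ∧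
      ∀ D₀ : Finset D,
        (Measure.pi (fun _ : D => Measure.pi (fun _ : Fin M => ν)))
          {l | ¬ ∃ g, g ∉ D₀ ∧ ∀ g', g' ≠ g → enc (l g) < enc (l g')} ≤
        ENNReal.ofReal (D₀.card / Fintype.card D + ε)

/-- (9a) facts on the refilling -/
def S_DEC : Prop :=
  ∀ (Γ Sg : Type) [Group Γ] [Nonempty Sg] (F : Finset Γ) (Pt : Set (F → Sg))
    (t : (Γ → Bool) → Γ) (e : Γ → Bool),
    (∀ (C : Set Γ) (z z' : Γ → Sg) (g : Γ), g ∈ C →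
      (∀ h ∈ Unk F t e C, h = g ∨ ctr t e h = ctr t e g → z h = z' h) →
      dec F Pt t e C z g = dec F Pt t e C z' g) ∧
    (∀ (C₁ C₂ : Set Γ) (z : Γ → Sg) (g : Γ), cell t e (ctr t e g) ⊆ C₁ → C₁ ⊆ C₂ →
      dec F Pt t e C₁ z g = dec F Pt t e C₂ z g ∧ (g ∈ Unk F t e C₁ ↔ g ∈ Unk F t e C₂)) ∧
    (∀ (C : Set Γ) (z : Γ → Sg) (γ : Γ), (∀ γ, Vld F Pt z γ) → (∀ δ ∈ F, δ * γ ∈ C) →
      Vld F Pt (dec F Pt t e C z) γ) ∧
    (∀ (k g : Γ), ctr t (sh k e) (g * k⁻¹) = ctr t e g * k⁻¹) ∧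
    (∀ (k j g : Γ), g ∈ cell t (sh k e) (j * k⁻¹) ↔ g * k ∈ cell t e j) ∧
    (∀ (C : Set Γ) (k g : Γ), g ∈ Unk F t (sh k e) {x | x * k ∈ C} ↔ g * k ∈ Unk F t e C) ∧
    (∀ (C : Set Γ) (z : Γ → Sg) (k g : Γ),
      dec F Pt t (sh k e) {x | x * k ∈ C} (sh k z) (g * k⁻¹) = dec F Pt t e C z g)

/-- LCL problems on `Γ` -/
structure LCL (Γ : Type) where
  Sg : Type
  fin : Finite Sg
  F : Finset Γ
  P : Set (F → Sg)

/-- the free part of the Bernoulli shift -/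
def freePart (Γ X : Type) [Group Γ] : Set (Γ → X) := {x | ∀ γ : Γ, γ ≠ 1 → sh γ x ≠ x}

/-- the class `FIID(X, μ, Γ)` -/
def FIID (Γ : Type) [Group Γ] {X : Type} [MeasurableSpace X] (μ : Measure X) : Set (LCL Γ) :=
  {Q | ∃ (U : Set (Γ → X)) (f : (Γ → X) → Q.Sg), U ⊆ freePart Γ X ∧
    (∀ γ : Γ, ∀ x ∈ U, sh γ x ∈ U) ∧ iid Γ μ (freePart Γ X \ U) = 0 ∧
    (∀ s, NullMeasurableSet (U ∩ f ⁻¹' {s}) (iid Γ μ)) ∧
    ∀ x ∈ U, (fun δ : Q.F => f (sh δ.1 x)) ∈ Q.P}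

/-- amenability (left Folner sets) -/
def Amen (Γ : Type) [Group Γ] : Prop :=
  ∀ (S : Finset Γ) (ε : ℝ), 0 < ε → ∃ F : Finset Γ, F.Nonempty ∧
    ∀ s ∈ S, ((((fun g => s * g) '' (F : Set Γ)) \ (F : Set Γ)).ncard : ℝ) ≤ ε * F.card

/-- the main theorem in almost everywhere form -/
def S_MAIN : Prop :=
  ∀ (Γ Sg X : Type) [Group Γ] [Countable Γ] [Infinite Γ] [Fintype Sg] [Nonempty Sg]
    [MeasurableSpace X] (_ : Folner Γ) (ν : Measure Bool) [IsProbabilityMeasure ν]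
    (_ : 0 < ν {true}) (_ : 0 < ν {false}) (μ : Measure X) [IsProbabilityMeasure μ]
    (F : Finset Γ) (Pt : Set (F → Sg)) (f : (Γ → X) → Sg)
    (_ : ∀ s, MeasurableSet (f ⁻¹' {s}))
    (_ : ∀ᵐ x ∂(iid Γ μ), (fun δ : F => f (sh δ.1 x)) ∈ Pt),
    ∃ f' : (Γ → Bool) → Sg, (∀ s, MeasurableSet (f' ⁻¹' {s})) ∧
      ∀ᵐ y ∂(iid Γ ν), (fun δ : F => f' (sh δ.1 y)) ∈ Pt

/-- the infinite case of the final theorem -/
def S_FININF : Prop :=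
  ∀ (Γ X Y : Type) [Group Γ] [Countable Γ] [Infinite Γ] (_ : Amen Γ)
    [MeasurableSpace X] [StandardBorelSpace X] [MeasurableSpace Y] [StandardBorelSpace Y]
    (μ : Measure X) [IsProbabilityMeasure μ] (ν : Measure Y) [IsProbabilityMeasure ν]
    (_ : ∀ x, μ {x} ≠ 1) (_ : ∀ y, ν {y} ≠ 1), FIID Γ μ ⊆ FIID Γ ν

/-- the finite case of the final theorem -/
def S_FINFIN : Prop :=
  ∀ (Γ X Y : Type) [Group Γ] [Finite Γ]
    [MeasurableSpace X] [StandardBorelSpace X] [MeasurableSpace Y] [StandardBorelSpace Y]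
    (μ : Measure X) [IsProbabilityMeasure μ] (ν : Measure Y) [IsProbabilityMeasure ν]
    (_ : ∀ x, μ {x} ≠ 1) (_ : ∀ y, ν {y} ≠ 1), FIID Γ μ ⊆ FIID Γ ν

end Pool.Agent.W868.FI
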