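import Pool.Agent.W868.FI.Next

/-! Assembly, first part: erased environments, resampling, joint local constancy. -/

open MeasureTheory Set Filter Topology

namespace Pool.Agent.W868.FI

variable {Γ Sg X : Type} [Group Γ]

theorem er_sh (a : (Γ → Bool) → Bool) (g : Γ) (y : Γ → Bool) :
    er a (sh g y) = sh g (er a y) := by
  funext h
  simp only [er, sh_sh]
  simp only [sh, er]

theorem continuous_er {a : (Γ → Bool) → Bool} (ha : Loc a) : Continuous (er a) := by
  refine continuous_pi fun g => ?_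
  have h : IsLocallyConstant (fun y : Γ → Bool => er a y g) := by
    rw [lat_iff]
    intro y
    have h1 := (lat_iff.1 ha.lc (sh g y)).comp_sh g
    filter_upwards [h1, nhds_agree y {g}] with y' h1 h2
    simp only [er]
    rw [h1, h2 g (by simp)]
  exact h.continuous

theorem Stars.er_a {ν : Measure Bool} {a b : (Γ → Bool) → Bool} (h : Stars ν a b)
    (y : Γ → Bool) : a (er a y) = a y ∧ b (er a y) = b y := by
  refine h.det y (er a y) fun g hg _ => ?_
  simp [er, hg]

theorem Stars.er_er {ν : Measure Bool} {a b : (Γ → Bool) → Bool} (h : Stars ν a b)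
    (y : Γ → Bool) (g : Γ) : a (sh g (er a y)) = a (sh g y) := by
  rw [← er_sh]
  exact (h.er_a _).1

/-- if `y'` agrees with `y` off the `a`-stars, the erased environments agree -/
theorem Stars.er_eq {ν : Measure Bool} {a b : (Γ → Bool) → Bool} (h : Stars ν a b)
    (y y' : Γ → Bool) (hy : ∀ g, a (sh g y) = false → y g = y' g) : er a y' = er a y := by
  have h1 : ∀ g, a (sh g y') = a (sh g y) := by
    intro g
    refine (h.det (sh g y) (sh g y') fun k hk _ => ?_).1
    rw [sh_sh] at hk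
    exact hy (k * g) hk
  funext g
  simp only [er]
  rw [h1 g]
  by_cases hg : a (sh g y) = true
  · simp [hg]
  · rw [if_neg hg, if_neg hg]
    exact (hy g (by simpa using hg)).symm

/-- resampled configuration -/
def rsm (a : (Γ → Bool) → Bool) (p : (Γ → Bool) × (Γ → Bool)) : Γ → Bool :=
  fun g => if a (sh g p.1) = true then p.2 g else p.1 g

theorem Stars.er_rsm {ν : Measure Bool} {a b : (Γ → Bool) → Bool} (h : Stars ν a b)
    (p : (Γ → Bool) × (Γ → Bool)) : er a (rsm a p) = er a p.1 := by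
  refine h.er_eq p.1 (rsm a p) fun g hg => ?_
  simp [rsm, hg]

theorem continuous_rsm {a : (Γ → Bool) → Bool} (ha : Loc a) : Continuous (rsm a) := by
  refine continuous_pi fun g => ?_
  have h1 : Continuous (fun p : (Γ → Bool) × (Γ → Bool) => a (sh g p.1)) :=
    (ha.lc.continuous.comp (continuous_sh g)).comp continuous_fst
  have h2 : Continuous (fun p : (Γ → Bool) × (Γ → Bool) => p.2 g) :=
    (continuous_apply g).comp continuous_snd
  have h3 : Continuous (fun p : (Γ → Bool) × (Γ → Bool) => p.1 g) :=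
    (continuous_apply g).comp continuous_fst
  have h4 : Continuous (fun q : Bool × Bool × Bool => if q.1 = true then q.2.1 else q.2.2) :=
    continuous_of_discreteTopology
  exact h4.comp (h1.prodMk (h2.prodMk h3))

/-- the resampling identity for events -/
theorem resample (hres : S_RES) [Countable Γ] {ν : Measure Bool} [IsProbabilityMeasure ν]
    {a b : (Γ → Bool) → Bool} (h : Stars ν a b) (E : (Γ → Bool) → (Γ → Bool) → Prop)
    (hE : MeasurableSet {y | E (er a y) y})
    (hdep : ∀ y b b', (∀ g, a (sh g y) = true → b g = b' g) →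
      (E (er a y) b ↔ E (er a y) b')) :
    iid Γ ν {y | E (er a y) y} =
      ((iid Γ ν).prod (iid Γ ν)) {p | E (er a p.1) p.2} := by
  have h1 := hres Γ Bool ν (fun g y => a (sh g y))
    (fun g => (h.loc_a.lc.continuous.comp (continuous_sh g)).measurable) (by
      intro y y' hy g
      refine (h.det (sh g y) (sh g y') fun k hk _ => ?_).1
      rw [sh_sh] at hk
      exact hy (k * g) hk)
  have hm : Measurable (rsm a) := (continuous_rsm h.loc_a).measurable
  have h2 : ((iid Γ ν).prod (iid Γ ν)).map (rsm a) = iid Γ ν := h1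
  conv_lhs => rw [← h2]
  rw [Measure.map_apply hm hE]
  congr 1
  ext p
  simp only [mem_preimage, Set.mem_ofPred_eq]
  rw [h.er_rsm p]
  refine hdep p.1 _ _ fun g hg => ?_
  simp [rsm, hg]

theorem ctr_sh (c : (Γ → Bool) → Γ) (e : Γ → Bool) (k g : Γ) :
    ctr c (sh k e) (g * k⁻¹) = ctr c e g * k⁻¹ := by
  simp only [ctr, sh_sh, mul_assoc, inv_mul_cancel, mul_one]

/-- equivariance of the field -/
theorem fld_sh [Nonempty Sg] (F : Finset Γ) (Pt : Set (F → Sg)) (t c : (Γ → Bool) → Γ)
    (ψ : (Γ → Bool) → (Γ → Bool) → Γ → Sg) (e b : Γ → Bool) (k x : Γ) :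
    fld F Pt t c ψ (sh k e) (sh k b) (x * k⁻¹) = fld F Pt t c ψ e b x := by
  simp only [fld]
  rw [ctr_sh]
  simp only [sh_sh, mul_inv_rev, inv_inv, mul_assoc, inv_mul_cancel_left, inv_mul_cancel,
    mul_one]

theorem fld_dep [Nonempty Sg] (F : Finset Γ) (Pt : Set (F → Sg)) (t : (Γ → Bool) → Γ)
    {c : (Γ → Bool) → Γ} {a : (Γ → Bool) → Bool}
    {ψ : (Γ → Bool) → (Γ → Bool) → Γ → Sg}
    (hψ : ∀ e, DepOn (avl a e (cell c e 1)) (ψ e)) (e : Γ → Bool) (x : Γ) :
    DepOn {h | a (sh h e) = true ∧ h ∈ cell c e (ctr c e x)}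
      (fun b => fld F Pt t c ψ e b x) := by
  intro b b' hb
  simp only [fld]
  have h1 : ψ (sh (ctr c e x) e) (sh (ctr c e x) b) = ψ (sh (ctr c e x) e) (sh (ctr c e x) b') := by
    refine hψ _ _ _ fun g hg => ?_
    have hg1 : g ∈ cell c (sh (ctr c e x) e) 1 := hg.1
    have hg2 : a (sh g (sh (ctr c e x) e)) = true := hg.2
    rw [sh_sh] at hg2
    refine hb (g * ctr c e x) ⟨hg2, ?_⟩
    have h3 : ctr c (sh (ctr c e x) e) ((g * ctr c e x) * (ctr c e x)⁻¹) = 1 := by
      rw [mul_inv_cancel_right]; exact hg1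
    rw [ctr_sh] at h3
    show ctr c e (g * ctr c e x) = ctr c e x
    exact mul_inv_eq_one.1 h3
  rw [h1]

/-- joint local constancy of the field -/
theorem fld_jlc [Nonempty Sg] (F : Finset Γ) (Pt : Set (F → Sg)) {t : (Γ → Bool) → Γ}
    (ht : Loc t) {c : (Γ → Bool) → Γ} (hc : Loc c) {a : (Γ → Bool) → Bool} (ha : Loc a)
    {ψ : (Γ → Bool) → (Γ → Bool) → Γ → Sg} (hlc : IsLocallyConstant ψ)
    (hψ : ∀ e, DepOn (avl a e (cell c e 1)) (ψ e)) (x : Γ) :
    IsLocallyConstant (fun p : (Γ → Bool) × (Γ → Bool) =>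
      fld F Pt t c ψ (er a p.1) p.2 x) := by
  rw [IsLocallyConstant.iff_eventually_eq]
  rintro ⟨y, b⟩
  have h1 : ∀ᶠ y' in 𝓝 y, (fun b : Γ → Bool => fld F Pt t c ψ (er a y') b x) =
      (fun b => fld F Pt t c ψ (er a y) b x) :=
    ((continuous_er ha).tendsto y).eventually (lat_fld F Pt ht hc hlc x (er a y))
  have hfin : (cell c (er a y) (ctr c (er a y) x)).Finite := cell_finite hc _ _
  have h2 : ∀ᶠ b' in 𝓝 b, ∀ k ∈ hfin.toFinset, b' k = b k := nhds_agree b _
  rw [nhds_prod_eq]
  filter_upwards [h1.prod_mk h2] with p hp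
  have h3 : fld F Pt t c ψ (er a p.1) p.2 x = fld F Pt t c ψ (er a y) p.2 x :=
    congrFun hp.1 p.2
  rw [h3]
  exact fld_dep F Pt t hψ (er a y) x p.2 b fun k hk => hp.2 k (by simpa using hk.2)

end Pool.Agent.W868.FI
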