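import Pool.Agent.W868.FI.Asm1

/-! Assembly, second part: the error of a stage and the validity error. -/

open MeasureTheory Set Filter Topology

namespace Pool.Agent.W868.FI

variable {Γ Sg X : Type} [Group Γ]

/-- range quotients -/
def RR (c : (Γ → Bool) → Γ) : Set Γ := {x | ∃ r ∈ range c, ∃ r' ∈ range c, x = r'⁻¹ * r}

theorem RR_finite {c : (Γ → Bool) → Γ} (hc : Loc c) : (RR c).Finite := by
  have h := range_finite hc
  have h2 : RR c ⊆ (fun p : Γ × Γ => p.2⁻¹ * p.1) '' ((range c) ×ˢ (range c)) := by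
    rintro x ⟨r, hr, r', hr', rfl⟩
    exact ⟨(r, r'), ⟨hr, hr'⟩, rfl⟩
  exact ((h.prod h).image _).subset h2

/-- separation event -/
def Sep (a : (Γ → Bool) → Bool) (c : (Γ → Bool) → Γ) (S : Set Γ) (y : Γ → Bool) : Prop :=
  ∃ s ∈ S, c (sh s (er a y)) * s ≠ c (er a y)

/-- good event -/
def Gd (Sg : Type) [Fintype Sg] (α : ℝ) (F : Finset Γ) (t : (Γ → Bool) → Γ)
    (a : (Γ → Bool) → Bool) (c : (Γ → Bool) → Γ) (η : ℝ) (y : Γ → Bool) : Prop :=
  kap Sg α F t a (sh (c (er a y)) (er a y)) (cell c (sh (c (er a y)) (er a y)) 1) ≤ η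

/-- sites needed around the origin -/
def VV (F : Finset Γ) (t : (Γ → Bool) → Γ) (W : Finset Γ) : Set Γ :=
  (F : Set Γ) ∪ RR t ∪ {x | ∃ w ∈ W, ∃ r ∈ RR t, x = w * r}

theorem VV_finite (F : Finset Γ) {t : (Γ → Bool) → Γ} (ht : Loc t) (W : Finset Γ) :
    (VV F t W).Finite := by
  refine (F.finite_toSet.union (RR_finite ht)).union ?_
  have h2 : {x | ∃ w ∈ W, ∃ r ∈ RR t, x = w * r} ⊆
      (fun p : Γ × Γ => p.1 * p.2) '' ((W : Set Γ) ×ˢ (RR t)) := by
    rintro x ⟨w, hw, r, hr, rfl⟩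
    exact ⟨(w, r), ⟨by exact_mod_cast hw, hr⟩, rfl⟩
  exact ((W.finite_toSet.prod (RR_finite ht)).image _).subset h2

theorem cell_one_RR (c : (Γ → Bool) → Γ) (e : Γ → Bool) (x : Γ)
    (hx : ctr c e x = ctr c e 1) : x ∈ RR c := by
  refine ⟨c (sh 1 e), ⟨_, rfl⟩, c (sh x e), ⟨_, rfl⟩, ?_⟩
  simp only [ctr, mul_one] at hx
  rw [← hx]; group

theorem ctr_one (c : (Γ → Bool) → Γ) (e : Γ → Bool) : ctr c e 1 = c e := by
  simp [ctr, sh_one]

theorem mem_cell_sh (c : (Γ → Bool) → Γ) (e : Γ → Bool) (k j x : Γ) :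
    x ∈ cell c (sh k e) (j * k⁻¹) ↔ x * k ∈ cell c e j := by
  have h := ctr_sh c e k (x * k)
  rw [mul_inv_cancel_right] at h
  show ctr c (sh k e) x = j * k⁻¹ ↔ ctr c e (x * k) = j
  rw [h]
  exact mul_left_inj _

/-- off the bad events the origin is in a fine position -/
theorem fine_of [Fintype Sg] (F : Finset Γ) (t : (Γ → Bool) → Γ) (a : (Γ → Bool) → Bool)
    (α : ℝ) (c c' : (Γ → Bool) → Γ) (η : ℝ) (W : Finset Γ) (y : Γ → Bool)
    (h1 : Gd Sg α F t a c η y) (h2 : ¬ Sep a c (VV F t W) y) (h3 : ¬ Sep a c' (RR c) y) :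
    Fine Sg F t a α c η W (sh (ctr c' (er a y) 1) (er a y))
      (cell c' (sh (ctr c' (er a y) 1) (er a y)) 1) (1 * (ctr c' (er a y) 1)⁻¹) := by
  set e := er a y with he
  set k := ctr c' e 1 with hk
  have hcc : ∀ x ∈ VV F t W, ctr c e x = ctr c e 1 := by
    intro x hx
    by_contra hne
    refine h2 ⟨x, hx, ?_⟩
    rw [ctr_one] at hne
    exact hne
  have hcc' : ∀ x ∈ RR c, ctr c' e x = k := by
    intro x hx
    by_contra hne
    refine h3 ⟨x, hx, ?_⟩
    rw [hk, ctr_one] at hne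
    exact hne
  have hRt : RR t ⊆ VV F t W := fun x hx => Or.inl (Or.inr hx)
  refine ⟨?_, ?_, ?_, ?_⟩
  · intro x hx
    rw [ctr_sh, mem_cell_sh] at hx
    have h4 : x * k ∈ RR c := cell_one_RR c e _ hx
    have h5 := hcc' _ h4
    have h6 : x ∈ cell c' (sh k e) (k * k⁻¹) := (mem_cell_sh c' e k k x).2 h5
    rwa [mul_inv_cancel] at h6
  · rw [ctr_sh, sh_sh, inv_mul_cancel_right, ctr_one]
    exact h1
  · intro x hx
    rw [ctr_sh, mem_cell_sh] at hx ⊢
    exact hcc _ (hRt (cell_one_RR t e _ hx))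
  · intro h hh w hw
    rw [ctr_sh, mem_cell_sh] at hh ⊢
    rw [mul_assoc]
    exact hcc _ (Or.inr ⟨w, hw, _, cell_one_RR t e _ hh, rfl⟩)

theorem preimage_le {O O' : Type} [MeasurableSpace O] [MeasurableSpace O'] {μ : Measure O}
    {ρ : Measure O'} {T : O → O'} (hT : Measurable T) (h : μ.map T = ρ) (s : Set O') :
    μ (T ⁻¹' s) ≤ ρ s := by
  calc μ (T ⁻¹' s) ≤ μ (T ⁻¹' (toMeasurable ρ s)) :=
        measure_mono (preimage_mono (subset_toMeasurable ρ s))
    _ = (μ.map T) (toMeasurable ρ s) := (Measure.map_apply hT (measurableSet_toMeasurable _ _)).symm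
    _ = ρ s := by rw [h, measure_toMeasurable]

/-- integrate a pointwise bound off a bad set -/
theorem prod_bound {O O' : Type} [MeasurableSpace O] [MeasurableSpace O'] (P : Measure O)
    [IsProbabilityMeasure P] (P' : Measure O') [IsProbabilityMeasure P'] (E : Set (O × O'))
    (hE : MeasurableSet E) (B : Set O) (hB : MeasurableSet B) (κ : ENNReal)
    (h : ∀ y, y ∉ B → P' {b | (y, b) ∈ E} ≤ κ) :
    (P.prod P') E ≤ P B + κ := by
  rw [Measure.prod_apply hE]
  calc ∫⁻ y, P' (Prod.mk y ⁻¹' E) ∂P ≤ ∫⁻ y, (B.indicator 1 y + κ) ∂P := by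
        refine lintegral_mono fun y => ?_
        by_cases hy : y ∈ B
        · simp only [indicator_of_mem hy, Pi.one_apply]
          exact (prob_le_one).trans (le_self_add)
        · simp only [indicator_of_notMem hy, zero_add]
          exact h y hy
    _ = P B + κ := by
        rw [lintegral_add_right _ measurable_const, lintegral_indicator_one hB,
          lintegral_const, measure_univ, mul_one]

theorem meas_of_lc {ι β : Type} [Countable ι] {φ : (ι → Bool) → β} (h : IsLocallyConstant φ)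
    (s : Set β) : MeasurableSet (φ ⁻¹' s) := (h s).measurableSet

theorem lc_er {a : (Γ → Bool) → Bool} (ha : Loc a) {β : Type} {φ : (Γ → Bool) → β}
    (h : IsLocallyConstant φ) : IsLocallyConstant (fun y => φ (er a y)) :=
  h.comp_continuous (continuous_er ha)

theorem lc_sep {a : (Γ → Bool) → Bool} (ha : Loc a) {c : (Γ → Bool) → Γ} (hc : Loc c)
    {S : Set Γ} (hS : S.Finite) : IsLocallyConstant (fun y => Sep a c S y) := by
  have h : IsLocallyConstant (fun e : Γ → Bool => ∃ s ∈ S, c (sh s e) * s ≠ c e) := by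
    rw [lat_iff]
    intro e
    have h1 : ∀ᶠ e' in 𝓝 e, ∀ s ∈ S, c (sh s e') = c (sh s e) := by
      rw [Filter.eventually_all_finite hS]
      intro s _
      exact (lat_iff.1 hc.lc (sh s e)).comp_sh s
    filter_upwards [h1, lat_iff.1 hc.lc e] with e' h1 h2
    apply propext
    constructor
    · rintro ⟨s, hs, hn⟩
      exact ⟨s, hs, by rw [← h1 s hs, ← h2]; exact hn⟩
    · rintro ⟨s, hs, hn⟩
      exact ⟨s, hs, by rw [h1 s hs, h2]; exact hn⟩
  exact lc_er ha h

theorem lc_gd [Fintype Sg] {a : (Γ → Bool) → Bool} (ha : Loc a) (α : ℝ) (F : Finset Γ)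
    {t : (Γ → Bool) → Γ} (ht : Loc t) {c : (Γ → Bool) → Γ} (hc : Loc c) (η : ℝ) :
    IsLocallyConstant (fun y => Gd Sg α F t a c η y) := by
  have h : IsLocallyConstant (fun e : Γ → Bool =>
      kap Sg α F t a (sh (c e) e) (cell c (sh (c e) e) 1) ≤ η) := by
    rw [lat_iff]
    intro e
    have h0 := lat_iff.1 hc.lc e
    have h2 := (lat_cell hc 1 (sh (c e) e)).comp_sh (c e)
    have h3 := (lat_kap (Sg := Sg) α F ht ha (cell_finite hc (sh (c e) e) 1)
      (sh (c e) e)).comp_sh (c e)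
    filter_upwards [h0, h2, h3] with e' h0 h2 h3
    rw [h0, h2, h3]
  exact lc_er ha h

/-- the error of a stage -/
theorem stage_err (hres : S_RES) [Countable Γ] [Fintype Sg] [Nonempty Sg] [MeasurableSpace X]
    {ν : Measure Bool} [IsProbabilityMeasure ν] {a b : (Γ → Bool) → Bool} (hs : Stars ν a b)
    (μ : Measure X) (α : ℝ) (F : Finset Γ) (Pt : Set (F → Sg)) {t : (Γ → Bool) → Γ}
    (ht : Loc t) (f : (Γ → X) → Sg) {c c' : (Γ → Bool) → Γ} (hc : Loc c) (hc' : Loc c')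
    {ψ ψ' : (Γ → Bool) → (Γ → Bool) → Γ → Sg} (hψ : IsLocallyConstant ψ)
    (hψ' : IsLocallyConstant ψ') (hd : ∀ e, DepOn (avl a e (cell c e 1)) (ψ e))
    (η η' ε : ℝ) (W : Finset Γ) (N : ℕ)
    (hG : ∀ e, GG ν μ α F Pt t a f c ψ η W ε N c' e (ψ' e)) :
    iid Γ ν {y | fld F Pt t c' ψ' (er a y) y 1 ≠ fld F Pt t c ψ (er a y) y 1} ≤
      iid Γ ν {y | ¬ Gd Sg α F t a c η y} + iid Γ ν {y | Sep a c (VV F t W) y} +
      iid Γ ν {y | Sep a c' (RR c) y} + iid Γ ν {y | ¬ Gd Sg α F t a c' η' y} +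
      ENNReal.ofReal (η + 2 * N * ε + η') := by
  have hd' : ∀ e, DepOn (avl a e (cell c' e 1)) (ψ' e) := fun e => (hG e).1
  set E : (Γ → Bool) → (Γ → Bool) → Prop :=
    fun e b => fld F Pt t c' ψ' e b 1 ≠ fld F Pt t c ψ e b 1 with hE
  have hj : IsLocallyConstant (fun p : (Γ → Bool) × (Γ → Bool) => E (er a p.1) p.2) := by
    have h1 := fld_jlc F Pt ht hc' hs.loc_a hψ' hd' 1
    have h2 := fld_jlc F Pt ht hc hs.loc_a hψ hd 1
    exact (h1.prodMk h2).comp (fun q : Sg × Sg => q.1 ≠ q.2)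
  have hEm : MeasurableSet {p : (Γ → Bool) × (Γ → Bool) | E (er a p.1) p.2} :=
    (hj {q | q}).measurableSet
  have hEd : MeasurableSet {y | E (er a y) y} := by
    have h1 : Continuous (fun y : Γ → Bool => (y, y)) := continuous_id.prodMk continuous_id
    exact h1.measurable hEm
  have h0 : iid Γ ν {y | E (er a y) y} =
      ((iid Γ ν).prod (iid Γ ν)) {p | E (er a p.1) p.2} := by
    refine resample hres hs E hEd ?_
    intro y b₁ b₂ hb
    have h1 := fld_dep F Pt t hd' (er a y) 1 b₁ b₂ (fun k hk => hb k (by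
      rw [← hs.er_er]; exact hk.1))
    have h2 := fld_dep F Pt t hd (er a y) 1 b₁ b₂ (fun k hk => hb k (by
      rw [← hs.er_er]; exact hk.1))
    simp only at h1 h2
    simp only [hE]
    rw [h1, h2]
  rw [h0]
  set B : Set (Γ → Bool) := {y | ¬ Gd Sg α F t a c η y} ∪ {y | Sep a c (VV F t W) y} ∪
    {y | Sep a c' (RR c) y} ∪ {y | ¬ Gd Sg α F t a c' η' y} with hB
  have hBm : MeasurableSet B := by
    have e1 := meas_of_lc (lc_gd (Sg := Sg) hs.loc_a α F ht hc η) {q | ¬ q}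
    have e2 := meas_of_lc (lc_sep hs.loc_a hc (VV_finite F ht W)) {q | q}
    have e3 := meas_of_lc (lc_sep hs.loc_a hc' (RR_finite hc)) {q | q}
    have e4 := meas_of_lc (lc_gd (Sg := Sg) hs.loc_a α F ht hc' η') {q | ¬ q}
    exact ((e1.union e2).union e3).union e4
  have hBle : iid Γ ν B ≤ iid Γ ν {y | ¬ Gd Sg α F t a c η y} +
      iid Γ ν {y | Sep a c (VV F t W) y} +
      iid Γ ν {y | Sep a c' (RR c) y} + iid Γ ν {y | ¬ Gd Sg α F t a c' η' y} := by
    refine (measure_union_le _ _).trans (add_le_add_left ?_ _)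
    refine (measure_union_le _ _).trans (add_le_add_left ?_ _)
    exact measure_union_le _ _
  refine (prod_bound (iid Γ ν) (iid Γ ν) _ hEm B hBm
    (ENNReal.ofReal (η + 2 * N * ε + η')) ?_).trans (add_le_add_left hBle _)
  intro y hy
  simp only [hB, mem_union, Set.mem_ofPred_eq, not_or, not_not] at hy
  obtain ⟨⟨⟨g1, g2⟩, g3⟩, g4⟩ := hy
  have hfine := fine_of F t a α c c' η W y g1 g2 g3
  set e := er a y with he
  set k := ctr c' e 1 with hk
  have hkc : k = c' e := ctr_one c' e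
  have hmem : 1 * k⁻¹ ∈ cell c' (sh k e) 1 := by
    show ctr c' (sh k e) (1 * k⁻¹) = 1
    rw [ctr_sh, ← hk, mul_inv_cancel]
  have h5 := (hG (sh k e)).2.2 _ hmem hfine
  have h6 : kap Sg α F t a (sh k e) (cell c' (sh k e) 1) ≤ η' := by
    rw [hkc]; exact g4
  have h7 : {b | (y, b) ∈ {p : (Γ → Bool) × (Γ → Bool) | E (er a p.1) p.2}} ⊆
      sh k ⁻¹' {b | fld F Pt t c ψ (sh k e) b (1 * k⁻¹) ≠
        dec F Pt t (sh k e) (cell c' (sh k e) 1) (ψ' (sh k e) b) (1 * k⁻¹)} := by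
    intro b hb
    simp only [Set.mem_ofPred_eq, mem_preimage] at hb ⊢
    rw [fld_sh]
    intro heq
    apply hb
    rw [heq]
    rfl
  calc iid Γ ν {b | (y, b) ∈ {p : (Γ → Bool) × (Γ → Bool) | E (er a p.1) p.2}}
      ≤ _ := measure_mono h7
    _ ≤ _ := preimage_le (measurable_sh k) (map_sh ν k) _
    _ ≤ _ := h5
    _ ≤ _ := ENNReal.ofReal_le_ofReal (by linarith)

/-- the validity error -/
theorem valid_err (hres : S_RES) (hdec : S_DEC) [Countable Γ] [Fintype Sg] [Nonempty Sg]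
    [MeasurableSpace X]
    {ν : Measure Bool} [IsProbabilityMeasure ν] {a b : (Γ → Bool) → Bool} (hs : Stars ν a b)
    (μ : Measure X) [IsProbabilityMeasure μ] (α : ℝ) (F : Finset Γ) (Pt : Set (F → Sg))
    {t : (Γ → Bool) → Γ}
    (ht : Loc t) (f : (Γ → X) → Sg)
    (hval : ∀ᵐ x ∂(iid Γ μ), (fun δ : F => f (sh δ.1 x)) ∈ Pt)
    {c : (Γ → Bool) → Γ} (hc : Loc c)
    {ψ : (Γ → Bool) → (Γ → Bool) → Γ → Sg} (hψ : IsLocallyConstant ψ)
    (η : ℝ) (hIP : IP F t a α ν μ f c ψ η) (W : Finset Γ) :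
    iid Γ ν {y | (fun δ : F => fld F Pt t c ψ (er a y) y δ.1) ∉ Pt} ≤
      iid Γ ν {y | ¬ Gd Sg α F t a c η y} + iid Γ ν {y | Sep a c (VV F t W) y} +
      ENNReal.ofReal η := by
  have hd : ∀ e, DepOn (avl a e (cell c e 1)) (ψ e) := fun e => (hIP e).1
  set E : (Γ → Bool) → (Γ → Bool) → Prop :=
    fun e b => (fun δ : F => fld F Pt t c ψ e b δ.1) ∉ Pt with hE
  have hj : IsLocallyConstant (fun p : (Γ → Bool) × (Γ → Bool) => E (er a p.1) p.2) := by
    rw [IsLocallyConstant.iff_eventually_eq]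
    intro p
    have h1 : ∀ᶠ q in 𝓝 p, ∀ δ : F, fld F Pt t c ψ (er a q.1) q.2 δ.1 =
        fld F Pt t c ψ (er a p.1) p.2 δ.1 := by
      rw [Filter.eventually_all]
      intro δ
      exact (IsLocallyConstant.iff_eventually_eq _).1 (fld_jlc F Pt ht hc hs.loc_a hψ hd δ.1) p
    filter_upwards [h1] with q hq
    simp only [hE, hq]
  have hEm : MeasurableSet {p : (Γ → Bool) × (Γ → Bool) | E (er a p.1) p.2} :=
    (hj {q | q}).measurableSet
  have hEd : MeasurableSet {y | E (er a y) y} := by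
    have h1 : Continuous (fun y : Γ → Bool => (y, y)) := continuous_id.prodMk continuous_id
    exact h1.measurable hEm
  have h0 : iid Γ ν {y | E (er a y) y} =
      ((iid Γ ν).prod (iid Γ ν)) {p | E (er a p.1) p.2} := by
    refine resample hres hs E hEd ?_
    intro y b₁ b₂ hb
    have h1 : ∀ δ : F, fld F Pt t c ψ (er a y) b₁ δ.1 = fld F Pt t c ψ (er a y) b₂ δ.1 :=
      fun δ => fld_dep F Pt t hd (er a y) δ.1 b₁ b₂ (fun k hk => hb k (by
        rw [← hs.er_er]; exact hk.1))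
    simp only [hE, h1]
  rw [h0]
  set B : Set (Γ → Bool) := {y | ¬ Gd Sg α F t a c η y} ∪ {y | Sep a c (VV F t W) y} with hB
  have hBm : MeasurableSet B := by
    have e1 := meas_of_lc (lc_gd (Sg := Sg) hs.loc_a α F ht hc η) {q | ¬ q}
    have e2 := meas_of_lc (lc_sep hs.loc_a hc (VV_finite F ht W)) {q | q}
    exact e1.union e2
  refine (prod_bound (iid Γ ν) (iid Γ ν) _ hEm B hBm
    (ENNReal.ofReal η) ?_).trans (add_le_add_left (measure_union_le _ _) _)
  intro y hy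
  simp only [hB, mem_union, Set.mem_ofPred_eq, not_or, not_not] at hy
  obtain ⟨g1, g2⟩ := hy
  set e := er a y with he
  set k := ctr c e 1 with hk
  have hkc : k = c e := ctr_one c e
  have hctr : ∀ δ ∈ F, ctr c e δ = k := by
    intro x hx
    by_contra hne
    refine g2 ⟨x, Or.inl (Or.inl (by exact_mod_cast hx)), ?_⟩
    rw [hkc] at hne
    exact hne
  obtain ⟨L, hL1, hL2, hL3⟩ := (hIP (sh k e)).2 (by rw [hkc]; exact g1)
  obtain ⟨d1, _, d3, _⟩ := hdec Γ Sg F Pt t (sh k e)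
  have h7 : {b | (y, b) ∈ {p : (Γ → Bool) × (Γ → Bool) | E (er a p.1) p.2}} ⊆
      sh k ⁻¹' {b | ¬ Vld F Pt (dec F Pt t (sh k e) (cell c (sh k e) 1) (ψ (sh k e) b)) k⁻¹} := by
    intro b hb
    simp only [Set.mem_ofPred_eq, mem_preimage] at hb ⊢
    intro hv
    apply hb
    have h8 : (fun δ : F => fld F Pt t c ψ e b δ.1) =
        fun δ : F => dec F Pt t (sh k e) (cell c (sh k e) 1) (ψ (sh k e) (sh k b))
          (δ.1 * k⁻¹) := by
      funext δ
      simp only [fld]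
      rw [hctr δ.1 δ.2]
    rw [← he, h8]
    exact hv
  have hae : ∀ᵐ x ∂(iid Γ μ), ∀ γ : Γ, Vld F Pt (fun g => f (sh g x)) γ := by
    rw [ae_all_iff]
    intro γ
    have h9 := (mp_sh μ γ).quasiMeasurePreserving.ae hval
    filter_upwards [h9] with x hx
    simp only [Vld]
    simpa only [sh_sh] using hx
  calc iid Γ ν {b | (y, b) ∈ {p : (Γ → Bool) × (Γ → Bool) | E (er a p.1) p.2}}
      ≤ _ := measure_mono h7
    _ ≤ iid Γ ν {b | ¬ Vld F Pt (dec F Pt t (sh k e) (cell c (sh k e) 1) (ψ (sh k e) b)) k⁻¹} :=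
        preimage_le (measurable_sh k) (map_sh ν k) _
    _ ≤ L (({p | ∃ g ∈ Unk F t (sh k e) (cell c (sh k e) 1),
          ψ (sh k e) p.1 g ≠ f (sh g p.2)}) ∪
          (Prod.snd ⁻¹' {x | ¬ ∀ γ : Γ, Vld F Pt (fun g => f (sh g x)) γ})) := by
        have hm : MeasurableSet {b : Γ → Bool |
            ¬ Vld F Pt (dec F Pt t (sh k e) (cell c (sh k e) 1) (ψ (sh k e) b)) k⁻¹} := by
          have hfin : (cell c (sh k e) 1).Finite := cell_finite hc _ _
          have hloc : Loc (fun b : Γ → Bool =>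
              ¬ Vld F Pt (dec F Pt t (sh k e) (cell c (sh k e) 1) (ψ (sh k e) b)) k⁻¹) := by
            refine ⟨hfin.toFinset, fun b₁ b₂ hb => ?_⟩
            have : ψ (sh k e) b₁ = ψ (sh k e) b₂ :=
              hd (sh k e) b₁ b₂ fun g hg => hb g (by simpa using hg.1)
            simp only [this]
          exact meas_of_lc hloc.lc {q | q}
        rw [← hL1, Measure.map_apply measurable_fst hm]
        refine measure_mono ?_
        intro p hp
        simp only [mem_preimage, Set.mem_ofPred_eq] at hp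
        by_contra hnot
        simp only [mem_union, mem_preimage, Set.mem_ofPred_eq, not_or, not_not] at hnot
        obtain ⟨n1, n2⟩ := hnot
        apply hp
        have n3 : ∀ g ∈ Unk F t (sh k e) (cell c (sh k e) 1),
            ψ (sh k e) p.1 g = f (sh g p.2) := by
          intro g hg
          by_contra hne
          exact n1 ⟨g, hg, hne⟩
        have hin : ∀ δ ∈ F, δ * k⁻¹ ∈ cell c (sh k e) 1 := by
          intro δ hδ
          show ctr c (sh k e) (δ * k⁻¹) = 1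
          rw [ctr_sh, hctr δ hδ, mul_inv_cancel]
        have h10 := d3 (cell c (sh k e) 1) (fun g => f (sh g p.2)) k⁻¹ n2 hin
        have h11 : (fun δ : F => dec F Pt t (sh k e) (cell c (sh k e) 1) (ψ (sh k e) p.1)
            (δ.1 * k⁻¹)) = fun δ : F => dec F Pt t (sh k e) (cell c (sh k e) 1)
              (fun g => f (sh g p.2)) (δ.1 * k⁻¹) := by
          funext δ
          exact d1 (cell c (sh k e) 1) (ψ (sh k e) p.1) (fun g => f (sh g p.2)) (δ.1 * k⁻¹)
            (hin δ.1 δ.2) (fun h hh _ => n3 h hh)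
        show (fun δ : F => dec F Pt t (sh k e) (cell c (sh k e) 1) (ψ (sh k e) p.1)
            (δ.1 * k⁻¹)) ∈ Pt
        rw [h11]
        exact h10
    _ ≤ _ + _ := measure_union_le _ _
    _ ≤ ENNReal.ofReal η + 0 := by
        refine add_le_add hL3 ?_
        have h12 : L (Prod.snd ⁻¹' {x | ¬ ∀ γ : Γ, Vld F Pt (fun g => f (sh g x)) γ}) ≤
            iid Γ μ {x | ¬ ∀ γ : Γ, Vld F Pt (fun g => f (sh g x)) γ} :=
          preimage_le measurable_snd hL2 _
        exact h12.trans (le_of_eq (ae_iff.1 hae))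
    _ = _ := add_zero _

end Pool.Agent.W868.FI
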