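import Pool.Agent.W868.FI.Asm1

/-! Goodness of the cells. -/

open MeasureTheory Set Filter Topology

namespace Pool.Agent.W868.FI

/-- (10) most cells are good -/
def S_GOOD : Prop :=
  ∀ (Γ Sg : Type) [Group Γ] [Countable Γ] [Infinite Γ] [Fintype Sg] [Nonempty Sg]
    (ν : Measure Bool) [IsProbabilityMeasure ν] (a b : (Γ → Bool) → Bool) (_ : Stars ν a b)
    (α : ℝ) (_ : 0 < α) (_ : α < 1) (F : Finset Γ) (t : (Γ → Bool) → Γ) (_ : Loc t)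
    (S₀ : Finset Γ) (_ : ∀ δ ∈ F, ∀ δ' ∈ F, δ * δ'⁻¹ ∈ S₀)
    (_ : 2 * Real.log (Fintype.card Sg) *
        (iid Γ ν {y | ∃ s ∈ S₀, t (sh s (er a y)) * s ≠ t (er a y)}).toReal <
      Real.log (1 / α) * (iid Γ ν {y | a y = true}).toReal)
    (η ε : ℝ), 0 < η → 0 < ε →
    ∃ (S : Finset Γ) (δ : ℝ), 0 < δ ∧ ∀ c : (Γ → Bool) → Γ, Loc c →
      iid Γ ν {y | ∃ s ∈ S, c (sh s (er a y)) * s ≠ c (er a y)} ≤ ENNReal.ofReal δ →
      iid Γ ν {y | ¬ kap Sg α F t a (sh (c (er a y)) (er a y))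
        (cell c (sh (c (er a y)) (er a y)) 1) ≤ η} ≤ ENNReal.ofReal ε

end Pool.Agent.W868.FI
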