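import Pool.Agent.W868.FI.Asm2
import Pool.Agent.W868.FI.Stms3

/-! Assembly, third part: the sequence of stages and the limit labeling. -/

open MeasureTheory Set Filter Topology

namespace Pool.Agent.W868.FI

theorem alpha_exists (ν : Measure Bool) [IsProbabilityMeasure ν] (h1 : 0 < ν {true})
    (h2 : 0 < ν {false}) : ∃ α : ℝ, 0 < α ∧ α < 1 ∧ ∀ b, ν {b} ≤ ENNReal.ofReal α := by
  have hsum : ν {true} + ν {false} = 1 := by
    rw [← measure_union (by simp) (measurableSet_singleton _)]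
    have : ({true} ∪ {false} : Set Bool) = univ := by ext b; cases b <;> simp
    rw [this, measure_univ]
  have ht : ν {true} ≠ ⊤ := measure_ne_top _ _
  have hf : ν {false} ≠ ⊤ := measure_ne_top _ _
  have h3 : (ν {true}).toReal + (ν {false}).toReal = 1 := by
    rw [← ENNReal.toReal_add ht hf, hsum]; simp
  have h4 : 0 < (ν {true}).toReal := ENNReal.toReal_pos h1.ne' ht
  have h5 : 0 < (ν {false}).toReal := ENNReal.toReal_pos h2.ne' hf
  refine ⟨max (ν {true}).toReal (ν {false}).toReal, lt_max_of_lt_left h4,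
    max_lt (by linarith) (by linarith), ?_⟩
  intro b
  cases b
  · exact (ENNReal.le_ofReal_iff_toReal_le hf (le_max_of_le_left h4.le)).2 (le_max_right _ _)
  · exact (ENNReal.le_ofReal_iff_toReal_le ht (le_max_of_le_left h4.le)).2 (le_max_left _ _)

/-- limit value of a sequence of labels -/
noncomputable def limv {Sg : Type} [Nonempty Sg] (G : ℕ → Sg) : Sg :=
  open Classical in
  if h : ∃ v, ∀ᶠ n in atTop, G n = v then h.choose else Classical.arbitrary Sg

theorem limv_eq {Sg : Type} [Nonempty Sg] {G : ℕ → Sg} {v : Sg} (h : ∀ᶠ n in atTop, G n = v) :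
    limv G = v := by
  have hex : ∃ v, ∀ᶠ n in atTop, G n = v := ⟨v, h⟩
  unfold limv
  rw [dif_pos hex]
  have h2 := hex.choose_spec
  obtain ⟨n, h3, h4⟩ := (h.and h2).exists
  rw [← h3, h4]

theorem limv_meas {O Sg : Type} [MeasurableSpace O] [Finite Sg] [Nonempty Sg]
    (G : ℕ → O → Sg) (hG : ∀ n s, MeasurableSet (G n ⁻¹' {s})) (s : Sg) :
    MeasurableSet ((fun y => limv (fun n => G n y)) ⁻¹' {s}) := by
  classical
  have h1 : ∀ v : Sg, MeasurableSet {y | ∀ᶠ n in atTop, G n y = v} := by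
    intro v
    have : {y | ∀ᶠ n in atTop, G n y = v} = ⋃ N : ℕ, ⋂ n ∈ Ici N, G n ⁻¹' {v} := by
      ext y
      simp [Filter.eventually_atTop]
    rw [this]
    exact MeasurableSet.iUnion fun N => MeasurableSet.biInter (to_countable _) fun n _ => hG n v
  have h2 : MeasurableSet {y | ∃ v, ∀ᶠ n in atTop, G n y = v} := by
    have : {y | ∃ v, ∀ᶠ n in atTop, G n y = v} = ⋃ v : Sg, {y | ∀ᶠ n in atTop, G n y = v} := by
      ext y; simp
    rw [this]
    exact MeasurableSet.iUnion h1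
  have h3 : ((fun y => limv (fun n => G n y)) ⁻¹' {s}) =
      {y | ∀ᶠ n in atTop, G n y = s} ∪
        ({y | ∃ v, ∀ᶠ n in atTop, G n y = v}ᶜ ∩ {_y | Classical.arbitrary Sg = s}) := by
    ext y
    simp only [mem_preimage, mem_singleton_iff, mem_union, mem_inter_iff, mem_compl_iff,
      Set.mem_ofPred_eq]
    constructor
    · intro h
      by_cases hex : ∃ v, ∀ᶠ n in atTop, G n y = v
      · left
        obtain ⟨v, hv⟩ := hex
        have := limv_eq (G := fun n => G n y) hv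
        rw [← h, this]; exact hv
      · right
        refine ⟨hex, ?_⟩
        unfold limv at h
        rw [dif_neg hex] at h
        exact h
    · rintro (h | ⟨h, h'⟩)
      · exact limv_eq (G := fun n => G n y) h
      · unfold limv
        rw [dif_neg h]; exact h'
  rw [h3]
  exact (h1 s).union (h2.compl.inter (MeasurableSet.const _))

theorem ev_const {Sg : Type} {G : ℕ → Sg} (h : ∀ᶠ n in atTop, G (n + 1) = G n) :
    ∃ v, ∀ᶠ n in atTop, G n = v := by
  obtain ⟨N, hN⟩ := Filter.eventually_atTop.1 h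
  refine ⟨G N, Filter.eventually_atTop.2 ⟨N, fun n hn => ?_⟩⟩
  induction n, hn using Nat.le_induction with
  | base => rfl
  | succ n hn ih => rw [hN n hn, ih]

theorem tsum_ne_top {O : Type} [MeasurableSpace O] (P : Measure O) (s : ℕ → Set O) (C : ℝ)
    (hC : 0 ≤ C) (h : ∀ n, P (s n) ≤ ENNReal.ofReal (C * (1 / 2) ^ n)) :
    ∑' n, P (s n) ≠ ⊤ := by
  have h1 : Summable (fun n : ℕ => C * (1 / 2 : ℝ) ^ n) :=
    (summable_geometric_of_lt_one (by norm_num) (by norm_num)).mul_left C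
  have h2 : ∑' n, ENNReal.ofReal (C * (1 / 2 : ℝ) ^ n) =
      ENNReal.ofReal (∑' n, C * (1 / 2 : ℝ) ^ n) :=
    (ENNReal.ofReal_tsum_of_nonneg (fun n => by positivity) h1).symm
  have h3 : ∑' n, P (s n) ≤ ∑' n, ENNReal.ofReal (C * (1 / 2 : ℝ) ^ n) :=
    ENNReal.tsum_le_tsum h
  rw [h2] at h3
  exact ne_top_of_le_ne_top ENNReal.ofReal_ne_top h3

/-- valid stages -/
def StP {Γ Sg X : Type} [Group Γ] [Fintype Sg] [MeasurableSpace X] (ν : Measure Bool)
    (μ : Measure X) (α : ℝ) (F : Finset Γ) (t : (Γ → Bool) → Γ) (a : (Γ → Bool) → Bool)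
    (f : (Γ → X) → Sg)
    (p : ((Γ → Bool) → Γ) × ((Γ → Bool) → (Γ → Bool) → Γ → Sg)) : Prop :=
  Loc p.1 ∧ IsLocallyConstant p.2 ∧ ∀ η' : ℝ, IP F t a α ν μ f p.1 p.2 η'

theorem kap_pos {Γ Sg : Type} [Group Γ] [Fintype Sg] [Nonempty Sg] {α : ℝ} (hα : 0 < α)
    (F : Finset Γ) (t : (Γ → Bool) → Γ) (a : (Γ → Bool) → Bool) (e : Γ → Bool) (C : Set Γ) :
    0 < kap Sg α F t a e C := by
  unfold kap
  have : 0 < (Fintype.card Sg : ℝ) := by exact_mod_cast Fintype.card_pos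
  positivity

set_option maxHeartbeats 4000000 in
theorem main_ae (hStars : S_STARS) (hPart : S_PART) (hGood : S_GOOD) (hApprox : S_APPROX)
    (hStage : S_STAGE) (hDec : S_DEC) (hRes : S_RES) : S_MAIN := by
  classical
  intro Γ Sg X _ _ _ _ _ _ hFol ν _ hνt hνf μ _ F Pt f hf hval
  obtain ⟨α, hα0, hα1, hα⟩ := alpha_exists ν hνt hνf
  obtain ⟨a, b, hs⟩ := hStars Γ ν hνt hνf
  have ha := hs.loc_a
  -- the first partition
  set ρ : ℝ := (iid Γ ν {y | a y = true}).toReal with hρ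
  have hρ0 : 0 < ρ := ENNReal.toReal_pos hs.posa.ne' (measure_ne_top _ _)
  have hl0 : 0 < Real.log (1 / α) := Real.log_pos (by rw [lt_div_iff₀ hα0]; linarith)
  set K : ℝ := 2 * Real.log (Fintype.card Sg) with hK
  have hK0 : 0 ≤ K := by
    have : (1 : ℝ) ≤ Fintype.card Sg := by exact_mod_cast Fintype.card_pos
    have := Real.log_nonneg this
    positivity
  set S₀ : Finset Γ := Finset.image₂ (fun δ δ' => δ * δ'⁻¹) F F with hS₀
  have hS₀' : ∀ δ ∈ F, ∀ δ' ∈ F, δ * δ'⁻¹ ∈ S₀ := by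
    intro δ hδ δ' hδ'
    exact Finset.mem_image₂.2 ⟨δ, hδ, δ', hδ', rfl⟩
  set ε₀ : ℝ := Real.log (1 / α) * ρ / (K + 1) / 2 with hε₀
  have hε₀0 : 0 < ε₀ := by positivity
  obtain ⟨t, ht, htS⟩ := hPart Γ hFol ν hνt hνf a b hs S₀ ε₀ hε₀0
  have hpos : K * (iid Γ ν {y | ∃ s ∈ S₀, t (sh s (er a y)) * s ≠ t (er a y)}).toReal <
      Real.log (1 / α) * ρ := by
    have h1 := ENNReal.toReal_mono ENNReal.ofReal_ne_top htS
    rw [ENNReal.toReal_ofReal hε₀0.le] at h1
    have h2 : K * ε₀ < Real.log (1 / α) * ρ := by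
      have h3 : ε₀ * (K + 1) * 2 = Real.log (1 / α) * ρ := by
        rw [hε₀]; field_simp
      nlinarith
    calc _ ≤ K * ε₀ := mul_le_mul_of_nonneg_left h1 hK0
      _ < _ := h2
  set N : ℕ := (range t).ncard with hN
  have hN' : ∀ e k, (cell t e k).ncard ≤ N := fun e k => cell_ncard ht e k
  -- parameters
  set η : ℕ → ℝ := fun n => (1 / 2) ^ n with hη
  set εs : ℕ → ℝ := fun n => (1 / 2) ^ n / (N + 1) with hεs
  have hη0 : ∀ n, 0 < η n := fun n => by simp only [hη]; positivity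
  have hεs0 : ∀ n, 0 < εs n := fun n => by simp only [hεs]; positivity
  choose W fW hfWm hfWd hfWe using fun n => hApprox Γ X Sg μ f hf (εs n) (hεs0 n)
  -- the step
  have step : ∀ (n : ℕ) (p : ((Γ → Bool) → Γ) × ((Γ → Bool) → (Γ → Bool) → Γ → Sg)),
      ∃ q : ((Γ → Bool) → Γ) × ((Γ → Bool) → (Γ → Bool) → Γ → Sg),
        StP ν μ α F t a f p → (StP ν μ α F t a f q ∧
        (∀ e, GG ν μ α F Pt t a f p.1 p.2 (η n) (W n) (εs n) N q.1 e (q.2 e)) ∧
        iid Γ ν {y | Sep a q.1 (VV F t (W (n + 1))) y} ≤ ENNReal.ofReal ((1 / 2) ^ n) ∧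
        iid Γ ν {y | Sep a q.1 (RR p.1) y} ≤ ENNReal.ofReal ((1 / 2) ^ n) ∧
        iid Γ ν {y | ¬ Gd Sg α F t a q.1 (η (n + 1)) y} ≤ ENNReal.ofReal ((1 / 2) ^ n)) := by
    intro n p
    by_cases hp : StP ν μ α F t a f p
    swap
    · exact ⟨p, fun h => absurd h hp⟩
    obtain ⟨hp1, hp2, hp3⟩ := hp
    obtain ⟨S₁, δ₁, hδ₁, hS₁⟩ := hGood Γ Sg ν a b hs α hα0 hα1 F t ht S₀ hS₀' hpos
      (η (n + 1)) ((1 / 2) ^ n) (hη0 _) (by positivity)
    set S : Finset Γ := S₁ ∪ (VV_finite F ht (W (n + 1))).toFinset ∪ (RR_finite hp1).toFinset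
      with hS
    obtain ⟨c', hc', hc'S⟩ := hPart Γ hFol ν hνt hνf a b hs S (min δ₁ ((1 / 2) ^ n))
      (lt_min hδ₁ (by positivity))
    obtain ⟨ψ', hψ', hG⟩ := next_stage hStage ν μ α hα F Pt ht ha f hf hp1 hp2 (η n)
      (hη0 n).le (hp3 _) (W n) (fW n) (hfWm n) (hfWd n) (εs n) (hεs0 n).le (hfWe n) N hN' hc'
    refine ⟨(c', ψ'), fun _ => ⟨⟨hc', hψ', fun η' => GG.ip hG η'⟩, hG, ?_, ?_, ?_⟩⟩
    · refine le_trans (measure_mono ?_) (hc'S.trans (ENNReal.ofReal_le_ofReal (min_le_right _ _)))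
      rintro y ⟨s, hsm, hne⟩
      exact ⟨s, by rw [hS]; simp only [Finset.mem_union, Set.Finite.mem_toFinset]
                   exact Or.inl (Or.inr hsm), hne⟩
    · refine le_trans (measure_mono ?_) (hc'S.trans (ENNReal.ofReal_le_ofReal (min_le_right _ _)))
      rintro y ⟨s, hsm, hne⟩
      exact ⟨s, by rw [hS]; simp only [Finset.mem_union, Set.Finite.mem_toFinset]
                   exact Or.inr hsm, hne⟩
    · refine hS₁ c' hc' ?_
      refine le_trans (measure_mono ?_) (hc'S.trans (ENNReal.ofReal_le_ofReal (min_le_left _ _)))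
      rintro y ⟨s, hsm, hne⟩
      exact ⟨s, by rw [hS]; simp only [Finset.mem_union, Set.Finite.mem_toFinset]
                   exact Or.inl (Or.inl hsm), hne⟩
  -- the start
  have start : ∃ p, StP ν μ α F t a f p := by
    have hc0 : Loc (fun _ : Γ → Bool => (1 : Γ)) := ⟨∅, fun _ _ _ => rfl⟩
    have hψ0 : IsLocallyConstant
        (fun _ : Γ → Bool => fun _ : Γ → Bool => fun _ : Γ => Classical.arbitrary Sg) :=
      IsLocallyConstant.const _
    have hIP : IP F t a α ν μ f (fun _ : Γ → Bool => (1 : Γ))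
        (fun _ : Γ → Bool => fun _ : Γ → Bool => fun _ : Γ => Classical.arbitrary Sg) 0 := by
      intro e
      refine ⟨fun _ _ _ => rfl, fun h => ?_⟩
      exact absurd h (not_le.2 (kap_pos hα0 F t a e _))
    obtain ⟨ψ', hψ', hG⟩ := next_stage hStage ν μ α hα F Pt ht ha f hf hc0 hψ0 0
      le_rfl hIP (W 0) (fW 0) (hfWm 0) (hfWd 0) (εs 0) (hεs0 0).le (hfWe 0) N hN' hc0
    exact ⟨(_, ψ'), hc0, hψ', fun η' => GG.ip hG η'⟩
  obtain ⟨p₀, hp₀⟩ := start
  choose nx hnx using step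
  let s : ℕ → ((Γ → Bool) → Γ) × ((Γ → Bool) → (Γ → Bool) → Γ → Sg) :=
    fun n => Nat.rec p₀ (fun n p => nx n p) n
  have hs0 : ∀ n, StP ν μ α F t a f (s n) := by
    intro n
    induction n with
    | zero => exact hp₀
    | succ n ih => exact (hnx n (s n) ih).1
  have hR : ∀ n, (∀ e, GG ν μ α F Pt t a f (s n).1 (s n).2 (η n) (W n) (εs n) N (s (n + 1)).1 e
        ((s (n + 1)).2 e)) ∧
        iid Γ ν {y | Sep a (s (n + 1)).1 (VV F t (W (n + 1))) y} ≤
          ENNReal.ofReal ((1 / 2) ^ n) ∧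
        iid Γ ν {y | Sep a (s (n + 1)).1 (RR (s n).1) y} ≤ ENNReal.ofReal ((1 / 2) ^ n) ∧
        iid Γ ν {y | ¬ Gd Sg α F t a (s (n + 1)).1 (η (n + 1)) y} ≤
          ENNReal.ofReal ((1 / 2) ^ n) := fun n => (hnx n (s n) (hs0 n)).2
  clear_value s
  set G : ℕ → (Γ → Bool) → Sg :=
    fun n y => fld F Pt t (s (n + 1)).1 (s (n + 1)).2 (er a y) y 1 with hGdef
  have hhalf : ∀ n : ℕ, (1 / 2 : ℝ) ^ (n + 1) ≤ (1 / 2) ^ n := fun n =>
    pow_le_pow_of_le_one (by norm_num) (by norm_num) (Nat.le_succ n)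
  have hpw : ∀ n : ℕ, (0 : ℝ) < (1 / 2) ^ n := fun n => by positivity
  have h2N : ∀ n, 2 * N * εs n ≤ 2 * (1 / 2) ^ n := by
    intro n
    simp only [hεs]
    have hN1 : (0 : ℝ) < (N : ℝ) + 1 := by positivity
    rw [mul_div_assoc', div_le_iff₀ hN1]
    have := hpw n
    have hN0 : (0 : ℝ) ≤ N := Nat.cast_nonneg _
    nlinarith
  -- errors of the stages
  have hD : ∀ n, iid Γ ν {y | G (n + 1) y ≠ G n y} ≤ ENNReal.ofReal (8 * (1 / 2) ^ n) := by
    intro n
    have h1 := stage_err hRes hs μ α F Pt ht f (hs0 (n + 1)).1 (hs0 (n + 2)).1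
      (hs0 (n + 1)).2.1 (hs0 (n + 2)).2.1 (fun e => ((hs0 (n + 1)).2.2 0 e).1)
      (η (n + 1)) (η (n + 2)) (εs (n + 1)) (W (n + 1)) N (hR (n + 1)).1
    refine h1.trans ?_
    have e1 := (hR n).2.2.2
    have e2 := (hR n).2.1
    have e3 := (hR (n + 1)).2.2.1
    have e4 := (hR (n + 1)).2.2.2
    have e3' := e3.trans (ENNReal.ofReal_le_ofReal (hhalf n))
    have e4' := e4.trans (ENNReal.ofReal_le_ofReal (hhalf n))
    have e5 : ENNReal.ofReal (η (n + 1) + 2 * N * εs (n + 1) + η (n + 2)) ≤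
        ENNReal.ofReal (4 * (1 / 2) ^ n) := by
      refine ENNReal.ofReal_le_ofReal ?_
      have := h2N (n + 1)
      have h3 := hhalf n
      have h4 := hhalf (n + 1)
      simp only [hη]
      linarith
    calc _ ≤ ENNReal.ofReal ((1 / 2) ^ n) + ENNReal.ofReal ((1 / 2) ^ n) +
          ENNReal.ofReal ((1 / 2) ^ n) + ENNReal.ofReal ((1 / 2) ^ n) +
          ENNReal.ofReal (4 * (1 / 2) ^ n) :=
          add_le_add (add_le_add (add_le_add (add_le_add e1 e2) e3') e4') e5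
      _ = ENNReal.ofReal (8 * (1 / 2) ^ n) := by
          rw [← ENNReal.ofReal_add (by positivity) (by positivity),
            ← ENNReal.ofReal_add (by positivity) (by positivity),
            ← ENNReal.ofReal_add (by positivity) (by positivity),
            ← ENNReal.ofReal_add (by positivity) (by positivity)]
          congr 1; ring
  have hE : ∀ n, iid Γ ν {y | (fun δ : F => fld F Pt t (s (n + 1)).1 (s (n + 1)).2
      (er a y) y δ.1) ∉ Pt} ≤ ENNReal.ofReal (3 * (1 / 2) ^ n) := by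
    intro n
    have h1 := valid_err hRes hDec hs μ α F Pt ht f hval (hs0 (n + 1)).1 (hs0 (n + 1)).2.1
      (η (n + 1)) ((hs0 (n + 1)).2.2 _) (W (n + 1))
    refine h1.trans ?_
    have e1 := (hR n).2.2.2
    have e2 := (hR n).2.1
    have e5 : ENNReal.ofReal (η (n + 1)) ≤ ENNReal.ofReal ((1 / 2) ^ n) :=
      ENNReal.ofReal_le_ofReal (hhalf n)
    calc _ ≤ ENNReal.ofReal ((1 / 2) ^ n) + ENNReal.ofReal ((1 / 2) ^ n) +
          ENNReal.ofReal ((1 / 2) ^ n) := add_le_add (add_le_add e1 e2) e5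
      _ = ENNReal.ofReal (3 * (1 / 2) ^ n) := by
          rw [← ENNReal.ofReal_add (by positivity) (by positivity),
            ← ENNReal.ofReal_add (by positivity) (by positivity)]
          congr 1; ring
  have hDt := tsum_ne_top (iid Γ ν) (fun n => {y | G (n + 1) y ≠ G n y}) 8 (by norm_num) hD
  have hEt := tsum_ne_top (iid Γ ν) (fun n => {y | (fun δ : F =>
    fld F Pt t (s (n + 1)).1 (s (n + 1)).2 (er a y) y δ.1) ∉ Pt}) 3 (by norm_num) hE
  have hDae : ∀ᵐ y ∂(iid Γ ν), ∀ᶠ n in atTop, y ∉ {y | G (n + 1) y ≠ G n y} :=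
    ae_eventually_notMem hDt
  have hEae : ∀ᵐ y ∂(iid Γ ν), ∀ᶠ n in atTop, y ∉ {y | (fun δ : F =>
    fld F Pt t (s (n + 1)).1 (s (n + 1)).2 (er a y) y δ.1) ∉ Pt} :=
    ae_eventually_notMem hEt
  have hGlc : ∀ n, IsLocallyConstant (G n) := by
    intro n
    have h1 := fld_jlc F Pt ht (hs0 (n + 1)).1 ha (hs0 (n + 1)).2.1
      (fun e => ((hs0 (n + 1)).2.2 0 e).1) 1
    have h2 : Continuous (fun y : Γ → Bool => (y, y)) := continuous_id.prodMk continuous_id
    exact h1.comp_continuous h2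
  have h6 : ∀ n (γ : Γ) (y : Γ → Bool), G n (sh γ y) =
        fld F Pt t (s (n + 1)).1 (s (n + 1)).2 (er a y) y γ := by
    intro n γ y
    simp only [hGdef]
    rw [er_sh]
    have h7 := fld_sh F Pt t (s (n + 1)).1 (s (n + 1)).2 (er a y) y γ γ
    rw [mul_inv_cancel] at h7
    exact h7
  clear_value G
  have hDall : ∀ᵐ y ∂(iid Γ ν), ∀ γ : Γ, ∀ᶠ n in atTop,
      sh γ y ∉ {y | G (n + 1) y ≠ G n y} := by
    rw [ae_all_iff]
    intro γ
    exact (mp_sh ν γ).quasiMeasurePreserving.ae hDae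
  refine ⟨fun y => limv (fun n => G n y), ?_, ?_⟩
  · intro v
    refine limv_meas G (fun n v => ?_) v
    exact meas_of_lc (hGlc n) {v}
  · filter_upwards [hDall, hEae] with y h1 h2
    have h3 : ∀ γ : Γ, ∀ᶠ n in atTop, G n (sh γ y) = limv (fun n => G n (sh γ y)) := by
      intro γ
      have h4 : ∀ᶠ n in atTop, G (n + 1) (sh γ y) = G n (sh γ y) := by
        filter_upwards [h1 γ] with n hn
        simpa using hn
      obtain ⟨v, hv⟩ := ev_const (G := fun n => G n (sh γ y)) h4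
      have h5 := limv_eq (G := fun n => G n (sh γ y)) hv
      rw [h5]; exact hv
    have h8 : ∀ᶠ n in atTop, ∀ δ : F, G n (sh δ.1 y) = limv (fun n => G n (sh δ.1 y)) := by
      rw [Filter.eventually_all]
      intro δ
      exact h3 δ.1
    obtain ⟨n, h9, h10⟩ := (h8.and h2).exists
    have h11 : (fun δ : F => fld F Pt t (s (n + 1)).1 (s (n + 1)).2 (er a y) y δ.1) =
        fun δ : F => limv (fun n => G n (sh δ.1 y)) := by
      funext δ
      rw [← h6, h9 δ]
    rw [← h11]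
    by_contra hcon
    exact h10 hcon

end Pool.Agent.W868.FI
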