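import Mathlib

/-! Factor of iid labelings: basic objects. -/

open MeasureTheory Set

namespace Pool.Agent.W868.FI

/-- the shift: `(γ · x)(δ) = x (δ γ)` -/
def sh {Γ X : Type} [Mul Γ] (γ : Γ) (x : Γ → X) : Γ → X := fun δ => x (δ * γ)

theorem sh_sh {Γ X : Type} [Group Γ] (δ γ : Γ) (x : Γ → X) : sh δ (sh γ x) = sh (δ * γ) x := by
  funext ε; simp [sh, mul_assoc]

theorem sh_one {Γ X : Type} [Group Γ] (x : Γ → X) : sh (1 : Γ) x = x := by
  funext ε; simp [sh]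

/-- the iid measure -/
noncomputable def iid (ι : Type) {X : Type} [MeasurableSpace X] (μ : Measure X) :
    Measure (ι → X) :=
  Measure.infinitePi (fun _ : ι => μ)

instance {ι X : Type} [MeasurableSpace X] (μ : Measure X) [IsProbabilityMeasure μ] :
    IsProbabilityMeasure (iid ι μ) := by
  unfold iid; infer_instance

/-- `φ` depends only on the coordinates in `K` -/
def DepOn {ι X β : Type} (K : Set ι) (φ : (ι → X) → β) : Prop :=
  ∀ x y : ι → X, (∀ k ∈ K, x k = y k) → φ x = φ y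

/-- `φ` is a local function -/
def Loc {ι X β : Type} (φ : (ι → X) → β) : Prop :=
  ∃ K : Finset ι, DepOn (K : Set ι) φ

/-- right Folner sets -/
def Folner (Γ : Type) [Group Γ] : Prop :=
  ∀ (S : Finset Γ) (ε : ℝ), 0 < ε → ∃ F : Finset Γ, F.Nonempty ∧
    ∀ s ∈ S, ((((fun g => g * s) '' (F : Set Γ)) \ (F : Set Γ)).ncard : ℝ) ≤ ε * F.card

/-- two kinds of star sites: the values at star sites are free -/
structure Stars {Γ : Type} [Group Γ] (ν : Measure Bool) (a b : (Γ → Bool) → Bool) : Prop where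
  loc_a : Loc a
  loc_b : Loc b
  disj : ∀ y, a y = true → b y = false
  det : ∀ y y' : Γ → Bool,
    (∀ g, a (sh g y) = false → b (sh g y) = false → y g = y' g) → a y' = a y ∧ b y' = b y
  posa : 0 < iid Γ ν {y | a y = true}
  posb : 0 < iid Γ ν {y | b y = true}

/-- erase the values at the `a` sites -/
def er {Γ : Type} [Group Γ] (a : (Γ → Bool) → Bool) (y : Γ → Bool) : Γ → Bool :=
  fun g => if a (sh g y) = true then false else y g

/-- centre of the cell of `x` -/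
def ctr {Γ : Type} [Group Γ] (c : (Γ → Bool) → Γ) (e : Γ → Bool) (x : Γ) : Γ :=
  c (sh x e) * x

/-- the cell with centre `k` -/
def cell {Γ : Type} [Group Γ] (c : (Γ → Bool) → Γ) (e : Γ → Bool) (k : Γ) : Set Γ :=
  {x | ctr c e x = k}

section LCLs

variable {Γ Sg : Type} [Group Γ]

/-- the configuration `z` satisfies the constraint at `γ` -/
def Vld (F : Finset Γ) (Pt : Set (F → Sg)) (z : Γ → Sg) (γ : Γ) : Prop :=
  (fun δ : F => z (δ.1 * γ)) ∈ Pt

/-- inner points of `τ` -/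
def inn (F : Finset Γ) (τ : Set Γ) : Set Γ :=
  {h | h ∈ τ ∧ ∀ γ, (∃ δ ∈ F, δ * γ = h) → ∀ δ ∈ F, δ * γ ∈ τ}

def OKP (F : Finset Γ) (Pt : Set (F → Sg)) (τ : Set Γ) (z z' : Γ → Sg) : Prop :=
  (∀ h ∈ τ, h ∉ inn F τ → z' h = z h) ∧ ∀ γ, (∀ δ ∈ F, δ * γ ∈ τ) → Vld F Pt z' γ

/-- canonical filling of `τ`; depends on `z` only through `τ \ inn F τ` -/
noncomputable def rep [Nonempty Sg] (F : Finset Γ) (Pt : Set (F → Sg)) (τ : Set Γ)
    (z : Γ → Sg) : Γ → Sg :=
  Classical.epsilon (OKP F Pt τ z)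

/-- canonical filling of the `t`-cell of `g` -/
noncomputable def fil [Nonempty Sg] (F : Finset Γ) (Pt : Set (F → Sg)) (t : (Γ → Bool) → Γ)
    (e : Γ → Bool) (z : Γ → Sg) (g : Γ) : Sg :=
  rep F Pt (cell t (sh (ctr t e g) e) 1) (sh (ctr t e g) z) (g * (ctr t e g)⁻¹)

def Known (F : Finset Γ) (t : (Γ → Bool) → Γ) (e : Γ → Bool) (C : Set Γ) (g : Γ) : Prop :=
  cell t e (ctr t e g) ⊆ C ∧ g ∈ inn F (cell t e (ctr t e g))

def Unk (F : Finset Γ) (t : (Γ → Bool) → Γ) (e : Γ → Bool) (C : Set Γ) : Set Γ :=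
  {g | g ∈ C ∧ ¬ Known F t e C g}

open Classical in
/-- refill the inner points of the `t`-cells inside `C` -/
noncomputable def dec [Nonempty Sg] (F : Finset Γ) (Pt : Set (F → Sg)) (t : (Γ → Bool) → Γ)
    (e : Γ → Bool) (C : Set Γ) (z : Γ → Sg) (g : Γ) : Sg :=
  if Known F t e C g then fil F Pt t e z g else z g

/-- the field of the coding `ψ` on the cells of `c` -/
noncomputable def fld [Nonempty Sg] (F : Finset Γ) (Pt : Set (F → Sg)) (t c : (Γ → Bool) → Γ)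
    (ψ : (Γ → Bool) → (Γ → Bool) → Γ → Sg) (e b : Γ → Bool) (x : Γ) : Sg :=
  dec F Pt t (sh (ctr c e x) e) (cell c (sh (ctr c e x) e) 1)
    (ψ (sh (ctr c e x) e) (sh (ctr c e x) b)) (x * (ctr c e x)⁻¹)

/-- the free sites in `C` -/
def avl (a : (Γ → Bool) → Bool) (e : Γ → Bool) (C : Set Γ) : Set Γ :=
  {g | g ∈ C ∧ a (sh g e) = true}

/-- error bound for coding on `C` -/
noncomputable def kap (Sg : Type) [Fintype Sg] (α : ℝ) (F : Finset Γ) (t : (Γ → Bool) → Γ)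
    (a : (Γ → Bool) → Bool) (e : Γ → Bool) (C : Set Γ) : ℝ :=
  2 * (Fintype.card Sg : ℝ) ^ (2 * (Unk F t e C).ncard) * α ^ (avl a e C).ncard

/-- induction hypothesis: the coding `ψ` on good `c`-cells (centred at `1`) is `η`-close in law
to the field of `f`, on the unknown sites -/
def IP [Fintype Sg] (F : Finset Γ) (t : (Γ → Bool) → Γ) (a : (Γ → Bool) → Bool)
    (α : ℝ) (ν : Measure Bool) {X : Type} [MeasurableSpace X] (μ : Measure X)
    (f : (Γ → X) → Sg) (c : (Γ → Bool) → Γ) (ψ : (Γ → Bool) → (Γ → Bool) → Γ → Sg)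
    (η : ℝ) : Prop :=
  ∀ e : Γ → Bool, DepOn (avl a e (cell c e 1)) (ψ e) ∧
    (kap Sg α F t a e (cell c e 1) ≤ η →
      ∃ L : Measure ((Γ → Bool) × (Γ → X)),
        L.map Prod.fst = iid Γ ν ∧ L.map Prod.snd = iid Γ μ ∧
        L {p | ∃ g ∈ Unk F t e (cell c e 1), ψ e p.1 g ≠ f (sh g p.2)} ≤ ENNReal.ofReal η)

/-- good position of `g` for passing from `c`-cells to the bigger set `C'` -/
def Fine (Sg : Type) [Fintype Sg] (F : Finset Γ) (t : (Γ → Bool) → Γ) (a : (Γ → Bool) → Bool)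
    (α : ℝ) (c : (Γ → Bool) → Γ) (η : ℝ) (W : Finset Γ) (e : Γ → Bool) (C' : Set Γ)
    (g : Γ) : Prop :=
  cell c e (ctr c e g) ⊆ C' ∧
  kap Sg α F t a (sh (ctr c e g) e) (cell c (sh (ctr c e g) e) 1) ≤ η ∧
  cell t e (ctr t e g) ⊆ cell c e (ctr c e g) ∧
  ∀ h ∈ cell t e (ctr t e g), ∀ w ∈ W, w * h ∈ cell c e (ctr c e g)

end LCLs

end Pool.Agent.W868.FI
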