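import Pool.Agent.W868.FI.Asm3
import Pool.Agent.W868.FI.Step
import Pool.Agent.W358.FIPart
import Pool.Agent.W505.FIS
import Pool.Agent.W540.FI.Arg
import Pool.Agent.W110.FI.AVG
import Pool.Agent.W883.FI.Good
import Pool.Agent.W883.FI.Stars
import Pool.Agent.W374.FIFin
import Pool.Agent.W493.FIFinfin
import Pool.Agent.W853.FIMANY
import Pool.Agent.W392.FIPatch
import Pool.Agent.W571.FI.Res
import Pool.Agent.W193.FI.Free
import Pool.Agent.W338.FI.Glue
import Pool.Agent.W856.FIApprox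
import Pool.Agent.W924.FIDec

/-! The classes `FIID` over amenable groups do not depend on the base space. -/

open MeasureTheory Set

namespace Pool.Agent.W868.FI

theorem mainAe : S_MAIN :=
  main_ae Pool.Agent.W883.FI.stars
    (Pool.Agent.W358.FIPart.part Pool.Agent.W571.FI.res Pool.Agent.W853.FIMANY.many
      Pool.Agent.W540.FI.arg)
    (Pool.Agent.W883.FI.good Pool.Agent.W110.FI.avg Pool.Agent.W924.FI.decf)
    Pool.Agent.W856.FI.approx
    (Pool.Agent.W505.FIS.stage (Pool.Agent.W868.FIStep.step Pool.Agent.W338.FI.Glue.glue)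
      Pool.Agent.W392.FIPatch.patch Pool.Agent.W924.FI.decf)
    Pool.Agent.W924.FI.decf
    Pool.Agent.W571.FI.res

theorem fiid_le {Γ : Type} [Group Γ] [Countable Γ] (hA : Amen Γ) {X Y : Type}
    [MeasurableSpace X] [StandardBorelSpace X] [MeasurableSpace Y] [StandardBorelSpace Y]
    (μ : Measure X) [IsProbabilityMeasure μ] (ν : Measure Y) [IsProbabilityMeasure ν]
    (hμ : ∀ x, μ {x} ≠ 1) (hν : ∀ y, ν {y} ≠ 1) : FIID Γ μ ⊆ FIID Γ ν := by
  rcases finite_or_infinite Γ with h | h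
  · exact Pool.Agent.W493.FIFinfin.finfin Γ X Y μ ν hμ hν
  · exact Pool.Agent.W374.FIFin.fininf mainAe Pool.Agent.W193.FI.free Γ X Y hA μ ν hμ hν

theorem fiid_eq {Γ : Type} [Group Γ] [Countable Γ] (hA : Amen Γ) {X Y : Type}
    [MeasurableSpace X] [StandardBorelSpace X] [MeasurableSpace Y] [StandardBorelSpace Y]
    (μ : Measure X) [IsProbabilityMeasure μ] (ν : Measure Y) [IsProbabilityMeasure ν]
    (hμ : ∀ x, μ {x} ≠ 1) (hν : ∀ y, ν {y} ≠ 1) : FIID Γ μ = FIID Γ ν :=
  Subset.antisymm (fiid_le hA μ ν hμ hν) (fiid_le hA ν μ hν hμ)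

end Pool.Agent.W868.FI
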