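import Pool.Agent.W868.FI.Defs

/-! Local functions and locally constant functions. -/

open MeasureTheory Set Filter Topology

namespace Pool.Agent.W868.FI

variable {Γ : Type} [Group Γ]

theorem continuous_sh {X : Type} [TopologicalSpace X] (γ : Γ) :
    Continuous (sh γ : (Γ → X) → (Γ → X)) :=
  continuous_pi fun δ => continuous_apply (δ * γ)

theorem measurable_sh {X : Type} [MeasurableSpace X] (γ : Γ) :
    Measurable (sh γ : (Γ → X) → (Γ → X)) :=
  measurable_pi_lambda _ fun δ => measurable_pi_apply (δ * γ)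

/-- shift invariance of the iid measure -/
theorem map_sh {X : Type} [MeasurableSpace X] (μ : Measure X) [IsProbabilityMeasure μ] (γ : Γ) :
    (iid Γ μ).map (sh γ) = iid Γ μ := by
  refine Measure.eq_infinitePi (fun _ : Γ => μ) (fun s t ht => ?_)
  classical
  rw [Measure.map_apply (measurable_sh γ) (MeasurableSet.pi s.countable_toSet fun i _ => ht i)]
  have h1 : sh γ ⁻¹' (Set.pi (s : Set Γ) t) =
      Set.pi ((s.image (· * γ) : Finset Γ) : Set Γ) (fun g => t (g * γ⁻¹)) := by
    ext x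
    simp only [mem_preimage, Set.mem_pi, Finset.mem_coe, Finset.mem_image]
    constructor
    · rintro h g ⟨i, hi, rfl⟩
      simpa [sh] using h i hi
    · intro h i hi
      have := h (i * γ) ⟨i, hi, rfl⟩
      simpa [sh] using this
  rw [h1]
  unfold iid
  rw [Measure.infinitePi_pi (fun _ : Γ => μ) (fun i _ => ht _)]
  rw [Finset.prod_image (fun x _ y _ h => mul_right_cancel h)]
  simp

theorem mp_sh {X : Type} [MeasurableSpace X] (μ : Measure X) [IsProbabilityMeasure μ] (γ : Γ) :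
    MeasurePreserving (sh γ) (iid Γ μ) (iid Γ μ) :=
  ⟨measurable_sh γ, map_sh μ γ⟩

theorem nhds_agree {ι : Type} (x : ι → Bool) (K : Finset ι) :
    ∀ᶠ y in 𝓝 x, ∀ k ∈ K, y k = x k := by
  rw [Filter.eventually_all_finset]
  intro k _
  have : Tendsto (fun y : ι → Bool => y k) (𝓝 x) (𝓝 (x k)) := (continuous_apply k).tendsto x
  have h2 : ({x k} : Set Bool) ∈ 𝓝 (x k) := by rw [nhds_discrete]; exact mem_pure.2 rfl
  exact this h2

theorem Loc.lc {ι β : Type} {φ : (ι → Bool) → β} (h : Loc φ) : IsLocallyConstant φ := by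
  obtain ⟨K, hK⟩ := h
  rw [IsLocallyConstant.iff_eventually_eq]
  intro x
  filter_upwards [nhds_agree x K] with y hy
  exact hK y x (fun k hk => hy k hk)

theorem exists_cyl {ι : Type} {U : Set (ι → Bool)} {x : ι → Bool} (hU : U ∈ 𝓝 x) :
    ∃ K : Finset ι, ∀ y, (∀ k ∈ K, y k = x k) → y ∈ U := by
  rw [nhds_pi, Filter.mem_pi] at hU
  obtain ⟨I, hI, t, ht, hs⟩ := hU
  refine ⟨hI.toFinset, fun y hy => hs ?_⟩
  intro i hi
  have h1 := ht i
  rw [nhds_discrete] at h1
  have h2 : x i ∈ t i := mem_of_mem_nhds (ht i)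
  rw [hy i (by simpa using hi)]
  exact h2

theorem loc_of_lc {ι β : Type} {φ : (ι → Bool) → β} (h : IsLocallyConstant φ) : Loc φ := by
  classical
  rw [IsLocallyConstant.iff_eventually_eq] at h
  choose K hK using fun x => exists_cyl (h x)
  obtain ⟨T, hT⟩ := isCompact_univ.elim_nhds_subcover (fun x => {y | ∀ k ∈ K x, y k = x k})
    (fun x _ => nhds_agree x (K x))
  refine ⟨T.biUnion K, fun x y hxy => ?_⟩
  have hx := hT.2 (mem_univ x)
  simp only [mem_iUnion] at hx
  obtain ⟨z, hz, hxz⟩ := hx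
  have h1 := hK z x hxz
  have h2 := hK z y (fun k hk => by
    rw [← hxy k (by simp only [Finset.coe_biUnion, mem_iUnion]; exact ⟨z, by exact_mod_cast hz, by exact_mod_cast hk⟩)]
    exact hxz k hk)
  exact h1.trans h2.symm

theorem loc_iff {ι β : Type} {φ : (ι → Bool) → β} : Loc φ ↔ IsLocallyConstant φ :=
  ⟨Loc.lc, loc_of_lc⟩

/-- locally constant at a point -/
def LAt {β : Type} (φ : (Γ → Bool) → β) (x : Γ → Bool) : Prop := ∀ᶠ y in 𝓝 x, φ y = φ x

theorem lat_iff {β : Type} {φ : (Γ → Bool) → β} : IsLocallyConstant φ ↔ ∀ x, LAt φ x :=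
  IsLocallyConstant.iff_eventually_eq φ

theorem LAt.comp_sh {β : Type} {φ : (Γ → Bool) → β} {x : Γ → Bool} (k : Γ)
    (h : LAt φ (sh k x)) : LAt (fun y => φ (sh k y)) x :=
  ((continuous_sh k).tendsto x).eventually h

theorem Loc.measurable_preimage {ι β : Type} [Countable ι] {φ : (ι → Bool) → β} (h : Loc φ)
    (s : Set β) : MeasurableSet (φ ⁻¹' s) :=
  (h.lc s).measurableSet

end Pool.Agent.W868.FI
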