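import Pool.Agent.W868.FI.LC
import Pool.Agent.W868.FI.Stms
import Pool.Agent.W868.FI.Stms2

/-! Local constancy in the environment of the data of a stage. -/

open MeasureTheory Set Filter Topology

namespace Pool.Agent.W868.FI

variable {Γ Sg : Type} [Group Γ]

theorem range_finite {β : Type} {c : (Γ → Bool) → β} (hc : Loc c) : (range c).Finite :=
  hc.lc.range_finite

/-- a finite set containing the cell with centre `k` -/
theorem cell_subset (c : (Γ → Bool) → Γ) (e : Γ → Bool) (k : Γ) :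
    cell c e k ⊆ (fun r => r⁻¹ * k) '' (range c) := by
  intro x hx
  refine ⟨c (sh x e), ⟨_, rfl⟩, ?_⟩
  simp only [cell, ctr, mem_setOf_eq] at hx
  simp only
  rw [← hx]
  group

theorem cell_finite {c : (Γ → Bool) → Γ} (hc : Loc c) (e : Γ → Bool) (k : Γ) :
    (cell c e k).Finite :=
  ((range_finite hc).image _).subset (cell_subset c e k)

theorem cell_ncard {c : (Γ → Bool) → Γ} (hc : Loc c) (e : Γ → Bool) (k : Γ) :
    (cell c e k).ncard ≤ (range c).ncard :=
  (Set.ncard_le_ncard (cell_subset c e k) ((range_finite hc).image _)).trans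
    (Set.ncard_image_le (range_finite hc))

theorem lat_ctr {c : (Γ → Bool) → Γ} (hc : Loc c) (x : Γ) (e : Γ → Bool) :
    LAt (fun e => ctr c e x) e := by
  have h := (lat_iff.1 hc.lc (sh x e)).comp_sh x
  filter_upwards [h] with e' he'
  simp only [ctr, he']

theorem lat_cell {c : (Γ → Bool) → Γ} (hc : Loc c) (k : Γ) (e : Γ → Bool) :
    LAt (fun e => cell c e k) e := by
  have hf : ((fun r => r⁻¹ * k) '' (range c)).Finite := (range_finite hc).image _
  have h : ∀ᶠ e' in 𝓝 e, ∀ x ∈ (fun r => r⁻¹ * k) '' (range c), ctr c e' x = ctr c e x := by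
    rw [Filter.eventually_all_finite hf]
    intro x _
    exact lat_ctr hc x e
  filter_upwards [h] with e' he'
  ext x
  constructor
  · intro hx
    have := he' x (cell_subset c e' k hx)
    exact this.symm.trans hx
  · intro hx
    have := he' x (cell_subset c e k hx)
    exact this.trans hx

theorem lat_known (F : Finset Γ) {t : (Γ → Bool) → Γ} (ht : Loc t) (C : Set Γ) (g : Γ)
    (e : Γ → Bool) : LAt (fun e => Known F t e C g) e := by
  filter_upwards [lat_ctr ht g e, lat_cell ht (ctr t e g) e] with e' h1 h2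
  simp only [Known]
  rw [h1, h2]

theorem lat_unk (F : Finset Γ) {t : (Γ → Bool) → Γ} (ht : Loc t) {C : Set Γ} (hC : C.Finite)
    (e : Γ → Bool) : LAt (fun e => Unk F t e C) e := by
  have h : ∀ᶠ e' in 𝓝 e, ∀ x ∈ C, Known F t e' C x = Known F t e C x := by
    rw [Filter.eventually_all_finite hC]
    intro x _
    exact lat_known F ht C x e
  filter_upwards [h] with e' he'
  ext x
  simp only [Unk, mem_setOf_eq]
  constructor
  · rintro ⟨hx, hn⟩
    exact ⟨hx, by rw [← he' x hx]; exact hn⟩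
  · rintro ⟨hx, hn⟩
    exact ⟨hx, by rw [he' x hx]; exact hn⟩

theorem lat_avl {a : (Γ → Bool) → Bool} (ha : Loc a) {C : Set Γ} (hC : C.Finite)
    (e : Γ → Bool) : LAt (fun e => avl a e C) e := by
  have h : ∀ᶠ e' in 𝓝 e, ∀ x ∈ C, a (sh x e') = a (sh x e) := by
    rw [Filter.eventually_all_finite hC]
    intro x _
    exact (lat_iff.1 ha.lc (sh x e)).comp_sh x
  filter_upwards [h] with e' he'
  ext x
  simp only [avl, mem_setOf_eq]
  constructor
  · rintro ⟨hx, hn⟩
    exact ⟨hx, by rw [← he' x hx]; exact hn⟩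
  · rintro ⟨hx, hn⟩
    exact ⟨hx, by rw [he' x hx]; exact hn⟩

theorem lat_kap [Fintype Sg] (α : ℝ) (F : Finset Γ) {t : (Γ → Bool) → Γ} (ht : Loc t)
    {a : (Γ → Bool) → Bool} (ha : Loc a) {C : Set Γ} (hC : C.Finite)
    (e : Γ → Bool) : LAt (fun e => kap Sg α F t a e C) e := by
  filter_upwards [lat_unk F ht hC e, lat_avl ha hC e] with e' h1 h2
  simp only [kap]
  rw [h1, h2]

theorem lat_fil [Nonempty Sg] (F : Finset Γ) (Pt : Set (F → Sg)) {t : (Γ → Bool) → Γ}
    (ht : Loc t) (g : Γ) (e : Γ → Bool) :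
    LAt (fun e => fun z : Γ → Sg => fil F Pt t e z g) e := by
  filter_upwards [lat_ctr ht g e, (lat_cell ht 1 (sh (ctr t e g) e)).comp_sh (ctr t e g)]
    with e' h1 h2
  funext z
  simp only [fil]
  rw [h1, h2]

theorem lat_dec [Nonempty Sg] (F : Finset Γ) (Pt : Set (F → Sg)) {t : (Γ → Bool) → Γ}
    (ht : Loc t) (C : Set Γ) (g : Γ) (e : Γ → Bool) :
    LAt (fun e => fun z : Γ → Sg => dec F Pt t e C z g) e := by
  filter_upwards [lat_known F ht C g e, lat_fil F Pt ht g e] with e' h1 h2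
  funext z
  have h2' : fil F Pt t e' z g = fil F Pt t e z g := congrFun h2 z
  have h1' : Known F t e' C g = Known F t e C g := h1
  show dec F Pt t e' C z g = dec F Pt t e C z g
  unfold dec
  by_cases hk : Known F t e C g
  · have hk' : Known F t e' C g := h1'.symm ▸ hk
    rw [if_pos hk, if_pos hk', h2']
  · have hk' : ¬ Known F t e' C g := fun h => hk (h1' ▸ h)
    rw [if_neg hk, if_neg hk']

theorem lat_fld [Nonempty Sg] (F : Finset Γ) (Pt : Set (F → Sg)) {t c : (Γ → Bool) → Γ}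
    (ht : Loc t) (hc : Loc c) {ψ : (Γ → Bool) → (Γ → Bool) → Γ → Sg}
    (hψ : IsLocallyConstant ψ) (x : Γ) (e : Γ → Bool) :
    LAt (fun e => fun b : Γ → Bool => fld F Pt t c ψ e b x) e := by
  have h0 := lat_ctr hc x e
  have h1 := (lat_cell hc 1 (sh (ctr c e x) e)).comp_sh (ctr c e x)
  have h2 := (lat_iff.1 hψ (sh (ctr c e x) e)).comp_sh (ctr c e x)
  have h3 := (lat_dec F Pt ht (cell c (sh (ctr c e x) e) 1) (x * (ctr c e x)⁻¹)
    (sh (ctr c e x) e)).comp_sh (ctr c e x)
  filter_upwards [h0, h1, h2, h3] with e' h0 h1 h2 h3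
  funext b
  simp only [fld]
  rw [h0, h1, h2]
  exact congrFun h3 _

theorem lat_fine [Fintype Sg] (F : Finset Γ) {t : (Γ → Bool) → Γ} (ht : Loc t)
    {a : (Γ → Bool) → Bool} (ha : Loc a) (α : ℝ) {c : (Γ → Bool) → Γ} (hc : Loc c) (η : ℝ)
    (W : Finset Γ) (C' : Set Γ) (g : Γ) (e : Γ → Bool) :
    LAt (fun e => Fine Sg F t a α c η W e C' g) e := by
  have h0 := lat_ctr hc g e
  have h1 := lat_cell hc (ctr c e g) e
  have h2 := (lat_cell hc 1 (sh (ctr c e g) e)).comp_sh (ctr c e g)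
  have h3 := (lat_kap (Sg := Sg) α F ht ha (cell_finite hc (sh (ctr c e g) e) 1)
    (sh (ctr c e g) e)).comp_sh (ctr c e g)
  have h4 := lat_ctr ht g e
  have h5 := lat_cell ht (ctr t e g) e
  filter_upwards [h0, h1, h2, h3, h4, h5] with e' h0 h1 h2 h3 h4 h5
  simp only [Fine]
  rw [h0, h1, h2, h3, h4, h5]

end Pool.Agent.W868.FI
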