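import Pool.Agent.W868.FI.LCat

/-! The next stage, chosen locally constantly in the environment. -/

open MeasureTheory Set Filter Topology

namespace Pool.Agent.W868.FI

variable {Γ Sg X : Type} [Group Γ] [Countable Γ] [Fintype Sg] [Nonempty Sg] [MeasurableSpace X]

/-- what the stage lemma gives, for one environment -/
def GG (ν : Measure Bool) (μ : Measure X) (α : ℝ) (F : Finset Γ) (Pt : Set (F → Sg))
    (t : (Γ → Bool) → Γ) (a : (Γ → Bool) → Bool) (f : (Γ → X) → Sg) (c : (Γ → Bool) → Γ)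
    (ψ : (Γ → Bool) → (Γ → Bool) → Γ → Sg) (η : ℝ) (W : Finset Γ) (ε : ℝ) (N : ℕ)
    (c' : (Γ → Bool) → Γ) (e : Γ → Bool) (ψ' : (Γ → Bool) → Γ → Sg) : Prop :=
  DepOn (avl a e (cell c' e 1)) ψ' ∧
      (∃ L : Measure ((Γ → Bool) × (Γ → X)),
        L.map Prod.fst = iid Γ ν ∧ L.map Prod.snd = iid Γ μ ∧
        L {p | ∃ g ∈ Unk F t e (cell c' e 1), ψ' p.1 g ≠ f (sh g p.2)} ≤
          ENNReal.ofReal (kap Sg α F t a e (cell c' e 1))) ∧
      ∀ g ∈ cell c' e 1, Fine Sg F t a α c η W e (cell c' e 1) g →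
        iid Γ ν {b | fld F Pt t c ψ e b g ≠ dec F Pt t e (cell c' e 1) (ψ' b) g} ≤
          ENNReal.ofReal (η + 2 * N * ε + kap Sg α F t a e (cell c' e 1))

theorem lat_GG (ν : Measure Bool) (μ : Measure X) (α : ℝ) (F : Finset Γ) (Pt : Set (F → Sg))
    {t : (Γ → Bool) → Γ} (ht : Loc t) {a : (Γ → Bool) → Bool} (ha : Loc a) (f : (Γ → X) → Sg)
    {c : (Γ → Bool) → Γ} (hc : Loc c)
    {ψ : (Γ → Bool) → (Γ → Bool) → Γ → Sg} (hψ : IsLocallyConstant ψ) (η : ℝ) (W : Finset Γ)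
    (ε : ℝ) (N : ℕ) {c' : (Γ → Bool) → Γ} (hc' : Loc c') (e : Γ → Bool) :
    LAt (fun e => GG ν μ α F Pt t a f c ψ η W ε N c' e) e := by
  have hC := cell_finite hc' e 1
  have h1 := lat_cell hc' 1 e
  have h2 := lat_avl ha hC e
  have h3 := lat_unk F ht hC e
  have h4 := lat_kap (Sg := Sg) α F ht ha hC e
  have h5 : ∀ᶠ e' in 𝓝 e, ∀ g ∈ cell c' e 1,
      Fine Sg F t a α c η W e' (cell c' e 1) g = Fine Sg F t a α c η W e (cell c' e 1) g := by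
    rw [Filter.eventually_all_finite hC]
    intro g _
    exact lat_fine F ht ha α hc η W (cell c' e 1) g e
  have h6 : ∀ᶠ e' in 𝓝 e, ∀ g ∈ cell c' e 1,
      (fun b : Γ → Bool => fld F Pt t c ψ e' b g) = (fun b => fld F Pt t c ψ e b g) := by
    rw [Filter.eventually_all_finite hC]
    intro g _
    exact lat_fld F Pt ht hc hψ g e
  have h7 : ∀ᶠ e' in 𝓝 e, ∀ g ∈ cell c' e 1,
      (fun z : Γ → Sg => dec F Pt t e' (cell c' e 1) z g) =
        (fun z => dec F Pt t e (cell c' e 1) z g) := by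
    rw [Filter.eventually_all_finite hC]
    intro g _
    exact lat_dec F Pt ht _ g e
  filter_upwards [h1, h2, h3, h4, h5, h6, h7] with e' h1 h2 h3 h4 h5 h6 h7
  funext ψ'
  simp only [GG]
  rw [h1, h2, h3, h4]
  apply propext
  refine and_congr_right fun _ => and_congr_right fun _ => ?_
  refine forall_congr' fun g => forall_congr' fun hg => ?_
  have h5' := h5 g hg
  have h6' := h6 g hg
  have h7' := h7 g hg
  rw [h5']
  have h8 : {b : Γ → Bool | fld F Pt t c ψ e' b g ≠ dec F Pt t e' (cell c' e 1) (ψ' b) g} =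
      {b | fld F Pt t c ψ e b g ≠ dec F Pt t e (cell c' e 1) (ψ' b) g} := by
    ext b
    have h6b := congrFun h6' b
    have h7b := congrFun h7' (ψ' b)
    simp only [Set.mem_ofPred_eq]
    rw [h6b, h7b]
  rw [h8]

theorem next_stage (hst : S_STAGE) (ν : Measure Bool) [IsProbabilityMeasure ν] (μ : Measure X)
    [IsProbabilityMeasure μ] (α : ℝ) (hα : ∀ b, ν {b} ≤ ENNReal.ofReal α)
    (F : Finset Γ) (Pt : Set (F → Sg))
    {t : (Γ → Bool) → Γ} (ht : Loc t) {a : (Γ → Bool) → Bool} (ha : Loc a) (f : (Γ → X) → Sg)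
    (hf : ∀ s, MeasurableSet (f ⁻¹' {s}))
    {c : (Γ → Bool) → Γ} (hc : Loc c)
    {ψ : (Γ → Bool) → (Γ → Bool) → Γ → Sg} (hψ : IsLocallyConstant ψ) (η : ℝ) (hη : 0 ≤ η)
    (hIP : IP F t a α ν μ f c ψ η) (W : Finset Γ) (fW : (Γ → X) → Sg)
    (hfW : ∀ s, MeasurableSet (fW ⁻¹' {s})) (hW : DepOn (W : Set Γ) fW)
    (ε : ℝ) (hε : 0 ≤ ε) (hfε : iid Γ μ {x | f x ≠ fW x} ≤ ENNReal.ofReal ε) (N : ℕ)
    (hN : ∀ e k, (cell t e k).ncard ≤ N) {c' : (Γ → Bool) → Γ} (hc' : Loc c') :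
    ∃ ψ' : (Γ → Bool) → (Γ → Bool) → Γ → Sg, IsLocallyConstant ψ' ∧
      ∀ e, GG ν μ α F Pt t a f c ψ η W ε N c' e (ψ' e) := by
  have hex : ∀ e, ∃ ψ', GG ν μ α F Pt t a f c ψ η W ε N c' e ψ' := by
    intro e
    exact hst Γ Sg X ν μ α hα F Pt t ht a f hf c hc ψ η hη hIP W fW hfW hW ε hε hfε N hN e
      (cell c' e 1) (cell_finite hc' e 1)
  refine ⟨fun e => Classical.epsilon (GG ν μ α F Pt t a f c ψ η W ε N c' e), ?_, ?_⟩
  · rw [lat_iff]
    intro e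
    filter_upwards [lat_GG ν μ α F Pt ht ha f hc hψ η W ε N hc' e] with e' he'
    simp only [he']
  · intro e
    exact Classical.epsilon_spec (hex e)

theorem GG.ip {ν : Measure Bool} {μ : Measure X} {α : ℝ} {F : Finset Γ} {Pt : Set (F → Sg)}
    {t : (Γ → Bool) → Γ} {a : (Γ → Bool) → Bool} {f : (Γ → X) → Sg} {c : (Γ → Bool) → Γ}
    {ψ : (Γ → Bool) → (Γ → Bool) → Γ → Sg} {η : ℝ} {W : Finset Γ} {ε : ℝ} {N : ℕ}
    {c' : (Γ → Bool) → Γ} {ψ' : (Γ → Bool) → (Γ → Bool) → Γ → Sg}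
    (h : ∀ e, GG ν μ α F Pt t a f c ψ η W ε N c' e (ψ' e)) (η' : ℝ) :
    IP F t a α ν μ f c' ψ' η' := by
  intro e
  refine ⟨(h e).1, fun hk => ?_⟩
  obtain ⟨L, h1, h2, h3⟩ := (h e).2.1
  exact ⟨L, h1, h2, h3.trans (ENNReal.ofReal_le_ofReal hk)⟩

end Pool.Agent.W868.FI
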